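import Pool.Agent.W858.SP.Theta

/-!
The inequality in one variable behind the induction step: for each `0 < u < 1` there is `τ > 0`
with `Θ τ * ((1 - u) ^ 6 + u ^ 3 / τ ^ 4) ≤ 1`.
-/

set_option autoImplicit false

namespace Pool.Agent.W858.SP

theorem chord (n : ℕ) {a b u : ℝ} (ha : 0 ≤ a) (hab : a < b) (hau : a ≤ u) (hub : u ≤ b) :
    u ^ n ≤ (b - u) / (b - a) * a ^ n + (u - a) / (b - a) * b ^ n := by
  have hd : 0 < b - a := by linarith
  have h := (convexOn_pow (𝕜 := ℝ) n).2 (Set.mem_Ici.2 ha) (Set.mem_Ici.2 (ha.trans hab.le))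
    (div_nonneg (by linarith : 0 ≤ b - u) hd.le) (div_nonneg (by linarith : 0 ≤ u - a) hd.le)
    (by field_simp; ring)
  simp only [smul_eq_mul] at h
  have e : (b - u) / (b - a) * a + (u - a) / (b - a) * b = u := by field_simp; ring
  rw [e] at h
  exact h

theorem conv_le {a b u c k : ℝ} (hk : 0 ≤ k) (ha : 0 ≤ a) (hb : b ≤ 1) (hab : a < b)
    (hau : a ≤ u) (hub : u ≤ b)
    (h1 : c * ((1 - a) ^ 6 + a ^ 3 * k) ≤ 1) (h2 : c * ((1 - b) ^ 6 + b ^ 3 * k) ≤ 1)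
    (hc : 0 ≤ c) : c * ((1 - u) ^ 6 + u ^ 3 * k) ≤ 1 := by
  have hd : 0 < b - a := by linarith
  have p1 := chord 3 ha hab hau hub
  have p2 := chord 6 (a := 1 - b) (b := 1 - a) (u := 1 - u) (by linarith) (by linarith)
    (by linarith) (by linarith)
  rw [show 1 - a - (1 - u) = u - a by ring, show 1 - a - (1 - b) = b - a by ring,
    show 1 - u - (1 - b) = b - u by ring] at p2
  set s := (b - u) / (b - a) with hs
  set t := (u - a) / (b - a) with ht
  have hs0 : 0 ≤ s := div_nonneg (by linarith) hd.le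
  have ht0 : 0 ≤ t := div_nonneg (by linarith) hd.le
  have hst : s + t = 1 := by rw [hs, ht]; field_simp; ring
  have p3 := mul_le_mul_of_nonneg_right p1 hk
  have p4 : (1 - u) ^ 6 + u ^ 3 * k ≤
      s * ((1 - a) ^ 6 + a ^ 3 * k) + t * ((1 - b) ^ 6 + b ^ 3 * k) := by nlinarith
  have p5 := mul_le_mul_of_nonneg_left p4 hc
  have p6 := mul_le_mul_of_nonneg_left h1 hs0
  have p7 := mul_le_mul_of_nonneg_left h2 ht0
  nlinarith

theorem small_poly {s : ℝ} (hs : 0 ≤ s) (hs1 : s ≤ 1 / 4) :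
    0 ≤ (3325391 / 6561000) + (-177147 / 125000) * s ^ 1 + (1707899 / 810000) * s ^ 2 + (396441 / 62500) * s ^ 3 + (-35374 / 625) * s ^ 4 + (-531441 / 25000) * s ^ 5 + (-19683 / 2000) * s ^ 6 := by
  have h1 : 0 ≤ 1 - 4 * s := by linarith
  have e : (3325391 / 6561000) + (-177147 / 125000) * s ^ 1 + (1707899 / 810000) * s ^ 2 + (396441 / 62500) * s ^ 3 + (-35374 / 625) * s ^ 4 + (-531441 / 25000) * s ^ 5 + (-19683 / 2000) * s ^ 6 =
      3325391 / 6561000 * (4 * s) ^ 0 * (1 - 4 * s) ^ 6 +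
      2937970511 / 1093500000 * (4 * s) ^ 1 * (1 - 4 * s) ^ 5 +
      10432766453 / 1749600000 * (4 * s) ^ 2 * (1 - 4 * s) ^ 4 +
      189485393941 / 26244000000 * (4 * s) ^ 3 * (1 - 4 * s) ^ 3 +
      43098147781 / 8748000000 * (4 * s) ^ 4 * (1 - 4 * s) ^ 2 +
      456605916377 / 279936000000 * (4 * s) ^ 5 * (1 - 4 * s) ^ 1 +
      37406003273 / 268738560000 * (4 * s) ^ 6 * (1 - 4 * s) ^ 0 := by ring
  rw [e]
  positivity

theorem large_poly {v : ℝ} (hv : 0 ≤ v) (hv1 : v ≤ 41 / 100) :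
    0 ≤ (1 / 4) + (-63070999 / 91506250) * v ^ 1 + (27620051 / 4159375) * v ^ 2 + (-109341061 / 6050000) * v ^ 3 + (482427 / 50000) * v ^ 4 + (-53923 / 10000) * v ^ 5 + (14641 / 10000) * v ^ 6 := by
  have h1 : 0 ≤ 1 - 100 / 41 * v := by linarith
  have e : (1 / 4) + (-63070999 / 91506250) * v ^ 1 + (27620051 / 4159375) * v ^ 2 + (-109341061 / 6050000) * v ^ 3 + (482427 / 50000) * v ^ 4 + (-53923 / 10000) * v ^ 5 + (14641 / 10000) * v ^ 6 =
      1 / 4 * (100 / 41 * v) ^ 0 * (1 - 100 / 41 * v) ^ 6 +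
      11140026541 / 9150625000 * (100 / 41 * v) ^ 1 * (1 - 100 / 41 * v) ^ 5 +
      1579986810791 / 457531250000 * (100 / 41 * v) ^ 2 * (1 - 100 / 41 * v) ^ 4 +
      3948301029175499 / 732050000000000 * (100 / 41 * v) ^ 3 * (1 - 100 / 41 * v) ^ 3 +
      304345297501195727 / 73205000000000000 * (100 / 41 * v) ^ 4 * (1 - 100 / 41 * v) ^ 2 +
      1900498747121411837 / 1464100000000000000 * (100 / 41 * v) ^ 5 * (1 - 100 / 41 * v) ^ 1 +
      8079857777463644021 / 146410000000000000000 * (100 / 41 * v) ^ 6 * (1 - 100 / 41 * v) ^ 0 := by ring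
  rw [e]
  positivity

theorem one_small {u : ℝ} (hu : 0 < u) (hu1 : u ≤ 1 / 16) :
    ∃ τ : ℝ, 0 < τ ∧ th τ * ((1 - u) ^ 6 + u ^ 3 / τ ^ 4) ≤ 1 := by
  set s := Real.sqrt u with hs
  have hs0 : 0 < s := Real.sqrt_pos.2 hu
  have hsu : s ^ 2 = u := Real.sq_sqrt hu.le
  have hs1 : s ≤ 1 / 4 := by
    rw [hs]
    apply Real.sqrt_le_iff.2
    constructor
    · norm_num
    · norm_num; exact hu1
  refine ⟨9 / 10 * s, by positivity, ?_⟩
  rw [th_lo (by linarith), ← hsu]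
  have e1 : (s ^ 2) ^ 3 / (9 / 10 * s) ^ 4 = 10000 / 6561 * s ^ 2 := by
    field_simp
    ring
  rw [e1]
  have h6 : (1 - s ^ 2) ^ 6 ≤ 1 - 6 * s ^ 2 + 15 * s ^ 4 := by
    have hx : 0 ≤ s ^ 2 := sq_nonneg s
    have hx1 : s ^ 2 ≤ 1 := by nlinarith
    have : 0 ≤ s ^ 6 * (20 - 15 * s ^ 2) + s ^ 10 * (6 - s ^ 2) := by
      have q1 : 0 ≤ 20 - 15 * s ^ 2 := by linarith
      have q2 : 0 ≤ 6 - s ^ 2 := by linarith
      positivity
    nlinarith
  have hp := small_poly hs0.le hs1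
  have ht : 0 ≤ 1 + 49 / 10 * (9 / 10 * s) ^ 2 + 243 / 125 * (9 / 10 * s) ^ 3 +
      (9 / 10 * s) ^ 4 := by positivity
  have h7 : (1 + 49 / 10 * (9 / 10 * s) ^ 2 + 243 / 125 * (9 / 10 * s) ^ 3 + (9 / 10 * s) ^ 4) *
      ((1 - s ^ 2) ^ 6 + 10000 / 6561 * s ^ 2) ≤
      (1 + 49 / 10 * (9 / 10 * s) ^ 2 + 243 / 125 * (9 / 10 * s) ^ 3 + (9 / 10 * s) ^ 4) *
      (1 - 6 * s ^ 2 + 15 * s ^ 4 + 10000 / 6561 * s ^ 2) :=
    mul_le_mul_of_nonneg_left (by linarith) ht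
  refine h7.trans ?_
  have h8 := mul_nonneg (sq_nonneg s) hp
  nlinarith

theorem one_large {u : ℝ} (hu : 59 / 100 ≤ u) (hu1 : u < 1) :
    ∃ τ : ℝ, 0 < τ ∧ th τ * ((1 - u) ^ 6 + u ^ 3 / τ ^ 4) ≤ 1 := by
  set v := 1 - u with hv
  have hv0 : 0 < v := by linarith
  have hv1 : v ≤ 41 / 100 := by linarith
  have hu' : u = 1 - v := by rw [hv]; ring
  have hτ : 1 ≤ (11 / 10 * v)⁻¹ := by
    rw [one_le_inv₀ (by positivity)]
    linarith
  refine ⟨(11 / 10 * v)⁻¹, by positivity, ?_⟩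
  rw [th_hi hτ, hu']
  have e1 : (1 + 543 / 125 * (11 / 10 * v)⁻¹ ^ 2 + 5 / 2 * (11 / 10 * v)⁻¹ ^ 3 +
      (11 / 10 * v)⁻¹ ^ 4) * (v ^ 6 + (1 - v) ^ 3 / (11 / 10 * v)⁻¹ ^ 4) =
      (1 + 5 / 2 * (11 / 10 * v) + 543 / 125 * (11 / 10 * v) ^ 2 + (11 / 10 * v) ^ 4) *
      (10000 / 14641 * v ^ 2 + (1 - v) ^ 3) := by
    field_simp
    ring
  rw [e1]
  have hp := large_poly hv0.le hv1
  have h8 := mul_nonneg hv0.le hp
  nlinarith

theorem one_mid {u a b τ : ℝ} (hau : a ≤ u) (hub : u ≤ b) (ha : 0 ≤ a) (hb : b ≤ 1) (hab : a < b)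
    (hτ : 0 < τ) (h1 : th τ * ((1 - a) ^ 6 + a ^ 3 * (τ ^ 4)⁻¹) ≤ 1)
    (h2 : th τ * ((1 - b) ^ 6 + b ^ 3 * (τ ^ 4)⁻¹) ≤ 1) :
    ∃ τ : ℝ, 0 < τ ∧ th τ * ((1 - u) ^ 6 + u ^ 3 / τ ^ 4) ≤ 1 :=
  ⟨τ, hτ, by
    rw [div_eq_mul_inv]
    exact conv_le (by positivity) ha hb hab hau hub h1 h2 (zero_le_one.trans (one_le_th hτ.le))⟩

theorem onevar {u : ℝ} (hu : 0 < u) (hu1 : u < 1) :
    ∃ τ : ℝ, 0 < τ ∧ th τ * ((1 - u) ^ 6 + u ^ 3 / τ ^ 4) ≤ 1 := by
  rcases le_total u (1 / 16) with h0 | h0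
  · exact one_small hu h0
  rcases le_total u (2 / 25) with h1 | h1
  · refine one_mid (a := 1 / 16) (b := 2 / 25) (τ := 6 / 25) h0 h1 (by norm_num)
      (by norm_num) (by norm_num) (by norm_num) ?_ ?_ <;>
    · rw [th_lo (by norm_num)]
      norm_num
  rcases le_total u (1 / 10) with h2 | h2
  · refine one_mid (a := 2 / 25) (b := 1 / 10) (τ := 7 / 25) h1 h2 (by norm_num)
      (by norm_num) (by norm_num) (by norm_num) ?_ ?_ <;>
    · rw [th_lo (by norm_num)]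
      norm_num
  rcases le_total u (3 / 25) with h3 | h3
  · refine one_mid (a := 1 / 10) (b := 3 / 25) (τ := 8 / 25) h2 h3 (by norm_num)
      (by norm_num) (by norm_num) (by norm_num) ?_ ?_ <;>
    · rw [th_lo (by norm_num)]
      norm_num
  rcases le_total u (29 / 200) with h4 | h4
  · refine one_mid (a := 3 / 25) (b := 29 / 200) (τ := 9 / 25) h3 h4 (by norm_num)
      (by norm_num) (by norm_num) (by norm_num) ?_ ?_ <;>
    · rw [th_lo (by norm_num)]
      norm_num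
  rcases le_total u (7 / 40) with h5 | h5
  · refine one_mid (a := 29 / 200) (b := 7 / 40) (τ := 21 / 50) h4 h5 (by norm_num)
      (by norm_num) (by norm_num) (by norm_num) ?_ ?_ <;>
    · rw [th_lo (by norm_num)]
      norm_num
  rcases le_total u (41 / 200) with h6 | h6
  · refine one_mid (a := 7 / 40) (b := 41 / 200) (τ := 12 / 25) h5 h6 (by norm_num)
      (by norm_num) (by norm_num) (by norm_num) ?_ ?_ <;>
    · rw [th_lo (by norm_num)]
      norm_num
  rcases le_total u (47 / 200) with h7 | h7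
  · refine one_mid (a := 41 / 200) (b := 47 / 200) (τ := 27 / 50) h6 h7 (by norm_num)
      (by norm_num) (by norm_num) (by norm_num) ?_ ?_ <;>
    · rw [th_lo (by norm_num)]
      norm_num
  rcases le_total u (53 / 200) with h8 | h8
  · refine one_mid (a := 47 / 200) (b := 53 / 200) (τ := 3 / 5) h7 h8 (by norm_num)
      (by norm_num) (by norm_num) (by norm_num) ?_ ?_ <;>
    · rw [th_lo (by norm_num)]
      norm_num
  rcases le_total u (29 / 100) with h9 | h9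
  · refine one_mid (a := 53 / 200) (b := 29 / 100) (τ := 33 / 50) h8 h9 (by norm_num)
      (by norm_num) (by norm_num) (by norm_num) ?_ ?_ <;>
    · rw [th_lo (by norm_num)]
      norm_num
  rcases le_total u (13 / 40) with h10 | h10
  · refine one_mid (a := 29 / 100) (b := 13 / 40) (τ := 37 / 50) h9 h10 (by norm_num)
      (by norm_num) (by norm_num) (by norm_num) ?_ ?_ <;>
    · rw [th_lo (by norm_num)]
      norm_num
  rcases le_total u (73 / 200) with h11 | h11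
  · refine one_mid (a := 13 / 40) (b := 73 / 200) (τ := 21 / 25) h10 h11 (by norm_num)
      (by norm_num) (by norm_num) (by norm_num) ?_ ?_ <;>
    · rw [th_lo (by norm_num)]
      norm_num
  rcases le_total u (41 / 100) with h12 | h12
  · refine one_mid (a := 73 / 200) (b := 41 / 100) (τ := 24 / 25) h11 h12 (by norm_num)
      (by norm_num) (by norm_num) (by norm_num) ?_ ?_ <;>
    · rw [th_lo (by norm_num)]
      norm_num
  rcases le_total u (93 / 200) with h13 | h13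
  · refine one_mid (a := 41 / 100) (b := 93 / 200) (τ := 57 / 50) h12 h13 (by norm_num)
      (by norm_num) (by norm_num) (by norm_num) ?_ ?_ <;>
    · rw [th_hi (by norm_num)]
      norm_num
  rcases le_total u (13 / 25) with h14 | h14
  · refine one_mid (a := 93 / 200) (b := 13 / 25) (τ := 69 / 50) h13 h14 (by norm_num)
      (by norm_num) (by norm_num) (by norm_num) ?_ ?_ <;>
    · rw [th_hi (by norm_num)]
      norm_num
  rcases le_total u (59 / 100) with h15 | h15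
  · refine one_mid (a := 13 / 25) (b := 59 / 100) (τ := 43 / 25) h14 h15 (by norm_num)
      (by norm_num) (by norm_num) (by norm_num) ?_ ?_ <;>
    · rw [th_hi (by norm_num)]
      norm_num
  exact one_large h15 hu1

end Pool.Agent.W858.SP
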