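import Pool.Agent.H633R4.SP.Func
import Pool.Agent.W858.SP.One

/-!
The lower bound for `R (A₀ ∪ A')` and the one-set inequality `P ^ 2 ≤ P₀ ^ 2 + P' * P` for the
sixth root `P` of `|A| ^ 5 / R ^ 2`.
-/

set_option autoImplicit false

namespace Pool.Agent.W858.SP

open Finset H633R4.SP

/-- the weak form of coprimality to `6` -/
structure Co6 (m : ℤ) : Prop where
  h2 : ∀ n : ℤ, m ∣ 2 * n → m ∣ n
  h3 : ∀ n : ℤ, m ∣ 3 * n → m ∣ n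

theorem E_N (T : Finset ℤ) (f : ℤ → ℝ) {ρ : ℝ} (hρ : 0 ≤ ρ) (h : N T f ≤ ρ) :
    E T (fun n => (Real.sqrt ρ)⁻¹ * f n) (fun n => (Real.sqrt ρ)⁻¹ * f n)
      (fun n => (Real.sqrt ρ)⁻¹ * f n) (fun n => (Real.sqrt ρ)⁻¹ * f n) ≤ 1 := by
  have h1 := N_smul T f (Real.sqrt ρ)⁻¹
  have h2 := N_sq T (fun n => (Real.sqrt ρ)⁻¹ * f n)
  rw [← h2, h1]
  rcases hρ.eq_or_lt with h0 | h0
  · rw [← h0]; norm_num
  · have e : (Real.sqrt ρ)⁻¹ ^ 2 = ρ⁻¹ := by rw [inv_pow, Real.sq_sqrt hρ]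
    rw [e]
    have h3 : ρ⁻¹ * N T f ≤ 1 := by
      rw [inv_mul_le_iff₀ h0, mul_one]; exact h
    have h4 : 0 ≤ ρ⁻¹ * N T f := mul_nonneg (inv_nonneg.2 hρ) (N_nonneg T f)
    calc (ρ⁻¹ * N T f) ^ 2 ≤ 1 ^ 2 := pow_le_pow_left₀ h4 h3 2
      _ = 1 := one_pow 2

theorem inv_sqrt_mul {ρ : ℝ} (hρ : 0 ≤ ρ) : (Real.sqrt ρ)⁻¹ * ρ = Real.sqrt ρ := by
  rcases hρ.eq_or_lt with h0 | h0
  · rw [← h0]; simp
  · rw [inv_mul_eq_div, div_eq_iff (Real.sqrt_pos.2 h0).ne', Real.mul_self_sqrt hρ]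

theorem G_mix {A A₀ A₁ : Finset ℤ} (h0 : A₀ ⊆ A) (h1 : A₁ ⊆ A) {m : ℤ} (hm : Co6 m)
    (hm0 : ∀ n ∈ A₀, ¬ m ∣ n) (hm1 : ∀ n ∈ A₁, m ∣ n) {ρ σ τ : ℝ} (hρ : G A₁ ρ) (hσ : G A₀ σ)
    (hτ : 0 ≤ τ) :
    G A ((Real.sqrt ρ + τ * Real.sqrt σ) ^ 2 / Real.sqrt (th τ)) := by
  have hρ0 := G_nonneg hρ
  have hσ0 := G_nonneg hσ
  obtain ⟨g, g1, g2, g3, g4⟩ := hρ
  obtain ⟨f, f1, f2, f3, f4⟩ := hσ
  have g2' : ∀ n, n ∉ A → g n = 0 := fun n hn => g2 n (fun h' => hn (h1 h'))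
  have f2' : ∀ n, n ∉ A → f n = 0 := fun n hn => f2 n (fun h' => hn (h0 h'))
  set g' : ℤ → ℝ := fun n => (Real.sqrt ρ)⁻¹ * g n with hg'
  set f' : ℤ → ℝ := fun n => (Real.sqrt σ)⁻¹ * f n with hf'
  have hEg : E A g' g' g' g' ≤ 1 := by
    apply E_N A g hρ0
    rw [N_sub h1 g g2]
    exact g4
  have hEf : E A f' f' f' f' ≤ 1 := by
    apply E_N A f hσ0
    rw [N_sub h0 f f2]
    exact f4
  have hgood : Good f' m := by
    refine ⟨fun n => ?_, fun n hn => ?_, hm.h2, hm.h3⟩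
    · exact mul_nonneg (inv_nonneg.2 (Real.sqrt_nonneg _)) (f1 n)
    · apply hm0
      by_contra h
      apply hn
      show (Real.sqrt σ)⁻¹ * f n = 0
      rw [f2 n h, mul_zero]
  have hg : ∀ n, g' n ≠ 0 → m ∣ n := by
    intro n hn
    apply hm1
    by_contra h
    apply hn
    show (Real.sqrt ρ)⁻¹ * g n = 0
    rw [g2 n h, mul_zero]
  have key := theta A hgood hg hEg hEf hτ
  have hth : 0 < th τ := lt_of_lt_of_le one_pos (one_le_th hτ)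
  have hsth : 0 < Real.sqrt (th τ) := Real.sqrt_pos.2 hth
  set S : ℝ := Real.sqrt ρ + τ * Real.sqrt σ with hS
  have hS0 : 0 ≤ S := add_nonneg (Real.sqrt_nonneg _) (mul_nonneg hτ (Real.sqrt_nonneg _))
  set c : ℝ := S / Real.sqrt (th τ) with hc
  have hc0 : 0 ≤ c := div_nonneg hS0 hsth.le
  refine ⟨fun n => c * (g' n + τ * f' n), fun n => ?_, fun n hn => ?_, ?_, ?_⟩
  · have a1 : 0 ≤ g' n := mul_nonneg (inv_nonneg.2 (Real.sqrt_nonneg _)) (g1 n)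
    have a2 : 0 ≤ f' n := mul_nonneg (inv_nonneg.2 (Real.sqrt_nonneg _)) (f1 n)
    positivity
  · show c * ((Real.sqrt ρ)⁻¹ * g n + τ * ((Real.sqrt σ)⁻¹ * f n)) = 0
    rw [g2' n hn, f2' n hn]; ring
  · have e1 : ∑ n ∈ A, g n = ρ := by
      rw [← g3]; exact (Finset.sum_subset h1 fun n _ hn => g2 n hn).symm
    have e2 : ∑ n ∈ A, f n = σ := by
      rw [← f3]; exact (Finset.sum_subset h0 fun n _ hn => f2 n hn).symm
    have a1 : ∑ n ∈ A, g' n = Real.sqrt ρ := by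
      show ∑ n ∈ A, (Real.sqrt ρ)⁻¹ * g n = Real.sqrt ρ
      rw [← Finset.mul_sum, e1, inv_sqrt_mul hρ0]
    have a2 : ∑ n ∈ A, f' n = Real.sqrt σ := by
      show ∑ n ∈ A, (Real.sqrt σ)⁻¹ * f n = Real.sqrt σ
      rw [← Finset.mul_sum, e2, inv_sqrt_mul hσ0]
    have e3 : ∑ n ∈ A, c * (g' n + τ * f' n) = c * S := by
      have a3 : ∑ n ∈ A, τ * f' n = τ * Real.sqrt σ := by rw [← Finset.mul_sum, a2]
      rw [← Finset.mul_sum, Finset.sum_add_distrib, a1, a3]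
    rw [e3, hc]
    ring
  · rw [N_smul A (fun n => g' n + τ * f' n) c]
    have h3 : N A (fun n => g' n + τ * f' n) ≤ Real.sqrt (th τ) := by
      unfold N
      exact Real.sqrt_le_sqrt key
    calc c ^ 2 * N A (fun n => g' n + τ * f' n) ≤ c ^ 2 * Real.sqrt (th τ) :=
          mul_le_mul_of_nonneg_left h3 (sq_nonneg c)
      _ = S ^ 2 / Real.sqrt (th τ) := by rw [hc]; field_simp

theorem R_mix {A A₀ A₁ : Finset ℤ} (hA0 : A₀.Nonempty) (h0 : A₀ ⊆ A)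
    (h1 : A₁ ⊆ A) {m : ℤ} (hm : Co6 m) (hm0 : ∀ n ∈ A₀, ¬ m ∣ n) (hm1 : ∀ n ∈ A₁, m ∣ n) {τ : ℝ}
    (hτ : 0 < τ) :
    (Real.sqrt (R A₁) + τ * Real.sqrt (R A₀)) ^ 4 ≤ th τ * R A ^ 2 := by
  have hA := hA0.mono h0
  have hRA := one_le_R hA
  have hth : 0 < th τ := lt_of_lt_of_le one_pos (one_le_th hτ.le)
  have hsth : 0 < Real.sqrt (th τ) := Real.sqrt_pos.2 hth
  set K : ℝ := Real.sqrt (Real.sqrt (th τ) * R A) with hK
  have hKsq : K ^ 2 = Real.sqrt (th τ) * R A := Real.sq_sqrt (by positivity)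
  have hK0 : 0 ≤ K := Real.sqrt_nonneg _
  have key : ∀ ρ σ, G A₁ ρ → G A₀ σ → Real.sqrt ρ + τ * Real.sqrt σ ≤ K := by
    intro ρ σ hρ hσ
    have h := le_csSup (bdd hA) (G_mix h0 h1 hm hm0 hm1 hρ hσ hτ.le)
    change _ ≤ R A at h
    rw [div_le_iff₀ hsth] at h
    apply le_of_sq_le_sq _ hK0
    rw [hKsq]
    linarith
  have s1 : ∀ σ, G A₀ σ → Real.sqrt (R A₁) ≤ K - τ * Real.sqrt σ := by
    intro σ hσ
    have hz := key 0 σ (G_zero A₁) hσ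
    rw [Real.sqrt_zero, zero_add] at hz
    rw [Real.sqrt_le_left (by linarith)]
    apply csSup_le ⟨0, G_zero A₁⟩
    intro ρ hρ
    have h := key ρ σ hρ hσ
    have hρ0 := G_nonneg hρ
    calc ρ = Real.sqrt ρ ^ 2 := (Real.sq_sqrt hρ0).symm
      _ ≤ (K - τ * Real.sqrt σ) ^ 2 := pow_le_pow_left₀ (Real.sqrt_nonneg _) (by linarith) 2
  have s2 : Real.sqrt (R A₀) ≤ (K - Real.sqrt (R A₁)) / τ := by
    have hz := s1 0 (G_zero A₀)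
    rw [Real.sqrt_zero, mul_zero, sub_zero] at hz
    rw [Real.sqrt_le_left (div_nonneg (by linarith) hτ.le)]
    apply csSup_le ⟨0, G_zero A₀⟩
    intro σ hσ
    have h := s1 σ hσ
    have hσ0 := G_nonneg hσ
    calc σ = Real.sqrt σ ^ 2 := (Real.sq_sqrt hσ0).symm
      _ ≤ ((K - Real.sqrt (R A₁)) / τ) ^ 2 := by
        apply pow_le_pow_left₀ (Real.sqrt_nonneg _)
        rw [le_div_iff₀ hτ]
        linarith
  rw [le_div_iff₀ hτ] at s2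
  have s3 : Real.sqrt (R A₁) + τ * Real.sqrt (R A₀) ≤ K := by linarith
  have s4 : 0 ≤ Real.sqrt (R A₁) + τ * Real.sqrt (R A₀) :=
    add_nonneg (Real.sqrt_nonneg _) (mul_nonneg hτ.le (Real.sqrt_nonneg _))
  calc (Real.sqrt (R A₁) + τ * Real.sqrt (R A₀)) ^ 4 ≤ K ^ 4 := pow_le_pow_left₀ s4 s3 4
    _ = (K ^ 2) ^ 2 := by ring
    _ = th τ * R A ^ 2 := by rw [hKsq, mul_pow, Real.sq_sqrt hth.le]

/-- Radon's inequality -/
theorem radon {x y s t : ℝ} (hx : 0 ≤ x) (hy : 0 ≤ y) (hs : 0 < s) (ht : 0 < t) :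
    (x + y) ^ 5 ≤ (x ^ 5 / s ^ 4 + y ^ 5 / t ^ 4) * (s + t) ^ 4 := by
  have hst : 0 < s + t := by linarith
  have h := (convexOn_pow (𝕜 := ℝ) 5).2 (Set.mem_Ici.2 (div_nonneg hx hs.le))
    (Set.mem_Ici.2 (div_nonneg hy ht.le))
    (div_nonneg hs.le hst.le) (div_nonneg ht.le hst.le)
    (by field_simp)
  simp only [smul_eq_mul] at h
  have e1 : s / (s + t) * (x / s) + t / (s + t) * (y / t) = (x + y) / (s + t) := by
    field_simp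
  rw [e1, div_pow, div_pow, div_pow, div_le_iff₀ (by positivity)] at h
  refine h.trans (le_of_eq ?_)
  field_simp

/-- the sixth root of `a ^ 5 / r ^ 2` -/
noncomputable def q6 (a r : ℝ) : ℝ := (a ^ 5 / r ^ 2) ^ ((1 : ℝ) / 6)

theorem q6_pow {a r : ℝ} (ha : 0 ≤ a) : q6 a r ^ 6 = a ^ 5 / r ^ 2 := by
  unfold q6
  rw [← Real.rpow_natCast, ← Real.rpow_mul (by positivity)]
  norm_num

theorem q6_nonneg {a r : ℝ} (ha : 0 ≤ a) : 0 ≤ q6 a r := Real.rpow_nonneg (by positivity) _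

theorem q6_pos {a r : ℝ} (ha : 0 < a) (hr : 0 < r) : 0 < q6 a r :=
  Real.rpow_pos_of_pos (by positivity) _

theorem os {a₀ a' R₀ R' ρ : ℝ} (ha₀ : 0 < a₀) (ha' : 0 < a') (hR₀ : 0 < R₀) (hR' : 0 < R')
    (hρ : 0 < ρ)
    (h : ∀ τ : ℝ, 0 < τ → (Real.sqrt R' + τ * Real.sqrt R₀) ^ 4 ≤ th τ * ρ ^ 2) :
    q6 (a₀ + a') ρ ^ 2 ≤ q6 a₀ R₀ ^ 2 + q6 a' R' * q6 (a₀ + a') ρ := by
  have ha : 0 < a₀ + a' := by linarith
  set p := q6 (a₀ + a') ρ with hp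
  set p₀ := q6 a₀ R₀ with hp₀
  set p' := q6 a' R' with hp'
  have pp : 0 < p := q6_pos ha hρ
  have pp₀ : 0 < p₀ := q6_pos ha₀ hR₀
  have pp' : 0 < p' := q6_pos ha' hR'
  have e : p ^ 6 = (a₀ + a') ^ 5 / ρ ^ 2 := q6_pow ha.le
  have e₀ : p₀ ^ 6 = a₀ ^ 5 / R₀ ^ 2 := q6_pow ha₀.le
  have e' : p' ^ 6 = a' ^ 5 / R' ^ 2 := q6_pow ha'.le
  rcases le_total (p ^ 2) (p₀ ^ 2) with hle | hle
  · have := mul_pos pp' pp
    linarith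
  by_contra hcon
  rw [not_le] at hcon
  set u : ℝ := p₀ ^ 2 / p ^ 2 with hu
  have hu0 : 0 < u := by positivity
  have eu : u * p ^ 2 = p₀ ^ 2 := by rw [hu]; field_simp
  have hv : p' < (1 - u) * p := by
    have h1 : p' * p < (1 - u) * p * p := by nlinarith
    exact lt_of_mul_lt_mul_right h1 pp.le
  have hu1 : u < 1 := by
    by_contra h1
    rw [not_lt] at h1
    have : (1 - u) * p ≤ 0 := mul_nonpos_of_nonpos_of_nonneg (by linarith) pp.le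
    linarith
  obtain ⟨τ, hτ, hone⟩ := onevar hu0 hu1
  have hth : 0 < th τ := lt_of_lt_of_le one_pos (one_le_th hτ.le)
  have hs' : 0 < Real.sqrt R' := Real.sqrt_pos.2 hR'
  have hs₀ : 0 < τ * Real.sqrt R₀ := mul_pos hτ (Real.sqrt_pos.2 hR₀)
  have hr := radon ha'.le ha₀.le hs' hs₀
  have e1 : Real.sqrt R' ^ 4 = R' ^ 2 := by
    rw [show Real.sqrt R' ^ 4 = (Real.sqrt R' ^ 2) ^ 2 by ring, Real.sq_sqrt hR'.le]
  have e2 : (τ * Real.sqrt R₀) ^ 4 = τ ^ 4 * R₀ ^ 2 := by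
    rw [show (τ * Real.sqrt R₀) ^ 4 = τ ^ 4 * (Real.sqrt R₀ ^ 2) ^ 2 by ring, Real.sq_sqrt hR₀.le]
  rw [e1, e2] at hr
  have e3 : a' ^ 5 / R' ^ 2 + a₀ ^ 5 / (τ ^ 4 * R₀ ^ 2) = p' ^ 6 + p₀ ^ 6 / τ ^ 4 := by
    rw [e', e₀, div_div, mul_comm (τ ^ 4)]
  rw [e3] at hr
  have h4 := h τ hτ
  have hpos : 0 ≤ p' ^ 6 + p₀ ^ 6 / τ ^ 4 := by positivity
  have h5 : (a' + a₀) ^ 5 ≤ (p' ^ 6 + p₀ ^ 6 / τ ^ 4) * (th τ * ρ ^ 2) :=
    hr.trans (mul_le_mul_of_nonneg_left h4 hpos)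
  have h6 : p ^ 6 ≤ (p' ^ 6 + p₀ ^ 6 / τ ^ 4) * th τ := by
    rw [e, div_le_iff₀ (by positivity), add_comm a₀ a']
    linarith
  have h7 : p' ^ 6 < ((1 - u) * p) ^ 6 := pow_lt_pow_left₀ hv pp'.le (by norm_num)
  have h8 : p₀ ^ 6 = u ^ 3 * p ^ 6 := by
    rw [show p₀ ^ 6 = (p₀ ^ 2) ^ 3 by ring, ← eu]; ring
  have h9 : (p' ^ 6 + p₀ ^ 6 / τ ^ 4) * th τ < (((1 - u) * p) ^ 6 + p₀ ^ 6 / τ ^ 4) * th τ :=
    mul_lt_mul_of_pos_right (by linarith) hth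
  have h10 : (((1 - u) * p) ^ 6 + p₀ ^ 6 / τ ^ 4) * th τ =
      p ^ 6 * (th τ * ((1 - u) ^ 6 + u ^ 3 / τ ^ 4)) := by
    rw [h8]; ring
  have h11 : p ^ 6 * (th τ * ((1 - u) ^ 6 + u ^ 3 / τ ^ 4)) ≤ p ^ 6 * 1 :=
    mul_le_mul_of_nonneg_left hone (by positivity)
  linarith

end Pool.Agent.W858.SP
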