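import Pool.Agent.H633R4.SP.Main
import Pool.Agent.W858.SP.Mix

/-!
The main induction over the primes at least `5`: `κ * (P A * P B) ≤ |A * B|` for the sixth root
`P A` of `|A| ^ 5 / (R A) ^ 2`.
-/

set_option autoImplicit false

namespace Pool.Agent.W858.SP

open Finset H633R4.SP
open scoped Pointwise

/-- the sixth root of `|A| ^ 5 / (R A) ^ 2` -/
noncomputable def P6 (A : Finset ℤ) : ℝ := q6 (A.card : ℝ) (R A)

theorem P6_nonneg (A : Finset ℤ) : 0 ≤ P6 A := q6_nonneg (Nat.cast_nonneg _)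

theorem P6_pos {A : Finset ℤ} (hA : A.Nonempty) : 0 < P6 A :=
  q6_pos (by exact_mod_cast hA.card_pos) (lt_of_lt_of_le one_pos (one_le_R hA))

theorem P6_pow (A : Finset ℤ) : P6 A ^ 6 = (A.card : ℝ) ^ 5 / R A ^ 2 :=
  q6_pow (Nat.cast_nonneg _)

/-- all elements have the same `p`-adic valuation -/
def EqV (p : ℕ) (A : Finset ℤ) : Prop := ∀ a ∈ A, ∀ a' ∈ A, padicValInt p a = padicValInt p a'

theorem co6_pow {p : ℕ} (hp : p.Prime) (h5 : 5 ≤ p) (k : ℕ) : Co6 ((p : ℤ) ^ k) := by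
  have h2 : IsCoprime ((p : ℤ) ^ k) (2 : ℤ) := by
    apply IsCoprime.pow_left
    have : Nat.Coprime p 2 := (Nat.coprime_primes hp Nat.prime_two).2 (by omega)
    exact_mod_cast Nat.isCoprime_iff_coprime.2 this
  have h3 : IsCoprime ((p : ℤ) ^ k) (3 : ℤ) := by
    apply IsCoprime.pow_left
    have : Nat.Coprime p 3 := (Nat.coprime_primes hp Nat.prime_three).2 (by omega)
    exact_mod_cast Nat.isCoprime_iff_coprime.2 this
  exact ⟨fun n hn => h2.dvd_of_dvd_mul_left hn, fun n hn => h3.dvd_of_dvd_mul_left hn⟩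

/-- splitting off the lowest valuation class -/
theorem split0 (p : ℕ) [Fact p.Prime] (A : Finset ℤ) (hA : A.Nonempty) (h0 : ∀ a ∈ A, a ≠ 0) :
    ∃ k : ℕ, ∃ A₀ A' : Finset ℤ, A₀.Nonempty ∧ A₀ ⊆ A ∧ A' ⊆ A ∧ A₀.card + A'.card = A.card ∧
      (∀ a ∈ A₀, padicValInt p a = k) ∧ (∀ a ∈ A', k < padicValInt p a) ∧
      (∀ a ∈ A, k ≤ padicValInt p a) ∧ (A' = ∅ → A₀ = A) ∧
      (∀ n ∈ A₀, ¬ (p : ℤ) ^ (k + 1) ∣ n) ∧ (∀ n ∈ A', (p : ℤ) ^ (k + 1) ∣ n) := by
  classical
  obtain ⟨a₀, ha₀, hmin⟩ := Finset.exists_min_image A (padicValInt p) hA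
  have hne : (A.filter (fun a => padicValInt p a = padicValInt p a₀)).Nonempty :=
    ⟨a₀, Finset.mem_filter.2 ⟨ha₀, rfl⟩⟩
  have hcard : (A.filter (fun a => padicValInt p a = padicValInt p a₀)).card +
      (A.filter (fun a => ¬ padicValInt p a = padicValInt p a₀)).card = A.card :=
    Finset.card_filter_add_card_filter_not (s := A)
      (fun a => padicValInt p a = padicValInt p a₀)
  have hdiv : ∀ a ∈ A, ((p : ℤ) ^ (padicValInt p a₀ + 1) ∣ a ↔
      padicValInt p a₀ + 1 ≤ padicValInt p a) := by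
    intro a ha
    rw [padicValInt_dvd_iff]
    constructor
    · rintro (h | h)
      · exact absurd h (h0 a ha)
      · exact h
    · exact fun h => Or.inr h
  refine ⟨padicValInt p a₀, A.filter (fun a => padicValInt p a = padicValInt p a₀),
    A.filter (fun a => ¬ padicValInt p a = padicValInt p a₀),
    hne, Finset.filter_subset _ _, Finset.filter_subset _ _,
    hcard, fun a ha => (Finset.mem_filter.1 ha).2, fun a ha => ?_, hmin, fun h => ?_,
    fun n hn => ?_, fun n hn => ?_⟩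
  · rw [Finset.mem_filter] at ha
    exact lt_of_le_of_ne (hmin a ha.1) (Ne.symm ha.2)
  · rw [Finset.filter_eq_empty_iff] at h
    rw [Finset.filter_eq_self]
    intro a ha
    have := h ha
    exact not_not.1 this
  · rw [Finset.mem_filter] at hn
    rw [hdiv n hn.1]
    omega
  · rw [Finset.mem_filter] at hn
    rw [hdiv n hn.1]
    have := hmin n hn.1
    omega

/-- one prime costs a factor of three -/
theorem R_val (p : ℕ) [Fact p.Prime] {c : ℝ} (hc : 0 ≤ c) : ∀ n : ℕ, ∀ A : Finset ℤ,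
    A.card ≤ n → A.Nonempty → (∀ a ∈ A, a ≠ 0) →
    (∀ B ⊆ A, B.Nonempty → EqV p B → c * (B.card : ℝ) ≤ R B) → c / 3 * (A.card : ℝ) ≤ R A := by
  intro n
  induction n with
  | zero =>
    intro A hn hA _ _
    have := hA.card_pos
    omega
  | succ n ih =>
    intro A hn hA h0 hB
    obtain ⟨k, A₀, A', hA₀, hA₀A, hA'A, hcA, hvA₀, hvA', hvA, heA, hd0, hd1⟩ := split0 p A hA h0
    have hE : EqV p A₀ := fun a ha a' ha' => by rw [hvA₀ a ha, hvA₀ a' ha']
    have h1 := hB A₀ hA₀A hA₀ hE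
    have h2 := R_comb hA₀ hA₀A hA'A hd0 hd1
    have hcA₀ := hA₀.card_pos
    have e : (A₀.card : ℝ) + (A'.card : ℝ) = (A.card : ℝ) := by exact_mod_cast hcA
    rcases A'.eq_empty_or_nonempty with hA' | hA'
    · have hA₀e := heA hA'
      rw [hA₀e] at h1
      have : c / 3 * (A.card : ℝ) ≤ c * (A.card : ℝ) := by
        have : 0 ≤ c * (A.card : ℝ) := by positivity
        linarith
      linarith
    · have hc' := hA'.card_pos
      have h3 := ih A' (by omega) hA' (fun a ha => h0 a (hA'A ha))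
        (fun B hB' hBn hBE => hB B (hB'.trans hA'A) hBn hBE)
      rw [← e]
      linarith

theorem EqV.sub {p : ℕ} {A B : Finset ℤ} (h : EqV p A) (hB : B ⊆ A) : EqV p B :=
  fun a ha a' ha' => h a (hB ha) a' (hB ha')

/-- the lower bound for `R` in the base case -/
theorem base_R {c : ℝ} (hc : 0 ≤ c) (X : Set ℤ) (h0 : ∀ x ∈ X, x ≠ 0)
    (hX : ∀ C : Finset ℤ, C.Nonempty → (∀ a ∈ C, a ∈ X) → (∀ p : ℕ, p.Prime → EqV p C) →
      c * (C.card : ℝ) ≤ R C)
    (A : Finset ℤ) (hA : A.Nonempty) (hAX : ∀ a ∈ A, a ∈ X)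
    (hE : ∀ p : ℕ, p.Prime → 5 ≤ p → EqV p A) : c / 9 * (A.card : ℝ) ≤ R A := by
  haveI : Fact (Nat.Prime 3) := ⟨Nat.prime_three⟩
  haveI : Fact (Nat.Prime 2) := ⟨Nat.prime_two⟩
  have h := R_val 3 (c := c / 3) (by positivity) A.card A le_rfl hA (fun a ha => h0 a (hAX a ha)) ?_
  · have e : c / 3 / 3 = c / 9 := by ring
    rwa [e] at h
  · intro B hB hBn hB3
    refine R_val 2 hc B.card B le_rfl hBn (fun a ha => h0 a (hAX a (hB ha))) ?_
    intro C hC hCn hC2
    apply hX C hCn (fun a ha => hAX a (hB (hC ha)))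
    intro p hp
    by_cases h2 : p = 2
    · rw [h2]; exact hC2
    by_cases h3 : p = 3
    · rw [h3]; exact hB3.sub hC
    have h5 : 5 ≤ p := by
      have h4 : p ≠ 4 := by
        intro h
        rw [h] at hp
        exact absurd hp (by norm_num)
      have := hp.two_le
      omega
    exact ((hE p hp h5).sub hB).sub hC

theorem main6 (X : Set ℤ) (κ : ℝ) (hκ : 0 ≤ κ) (h0 : ∀ x ∈ X, x ≠ 0)
    (hbase : ∀ A B : Finset ℤ, A.Nonempty → B.Nonempty → (∀ a ∈ A, a ∈ X) → (∀ b ∈ B, b ∈ X) →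
      (∀ p : ℕ, p.Prime → 5 ≤ p → EqV p A) → (∀ p : ℕ, p.Prime → 5 ≤ p → EqV p B) →
      κ * (P6 A * P6 B) ≤ ((A * B).card : ℝ)) :
    ∀ n : ℕ, ∀ A B : Finset ℤ, A.card + B.card ≤ n → A.Nonempty → B.Nonempty →
      (∀ a ∈ A, a ∈ X) → (∀ b ∈ B, b ∈ X) → κ * (P6 A * P6 B) ≤ ((A * B).card : ℝ) := by
  intro n
  induction n with
  | zero =>
    intro A B hn hA _ _
    have := hA.card_pos
    omega
  | succ n ih =>
    intro A B hn hA hB hAX hBX
    by_cases hcase : ∀ p : ℕ, p.Prime → 5 ≤ p → EqV p A ∧ EqV p B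
    · exact hbase A B hA hB hAX hBX (fun p hp h5 => (hcase p hp h5).1)
        (fun p hp h5 => (hcase p hp h5).2)
    · simp only [not_forall] at hcase
      obtain ⟨p, hp, hp5, hnc⟩ := hcase
      haveI : Fact p.Prime := ⟨hp⟩
      obtain ⟨k, A₀, A', hA₀, hA₀A, hA'A, hcA, hvA₀, hvA', hvA, heA, hdA0, hdA1⟩ :=
        split0 p A hA fun a ha => h0 a (hAX a ha)
      obtain ⟨l, B₀, B', hB₀, hB₀B, hB'B, hcB, hvB₀, hvB', hvB, heB, hdB0, hdB1⟩ :=
        split0 p B hB fun b hb => h0 b (hBX b hb)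
      have hOS : ∀ (k : ℕ) (A A₀ A' : Finset ℤ), A₀.Nonempty → A₀ ⊆ A → A' ⊆ A →
          A₀.card + A'.card = A.card → (∀ n ∈ A₀, ¬ (p : ℤ) ^ (k + 1) ∣ n) →
          (∀ n ∈ A', (p : ℤ) ^ (k + 1) ∣ n) → A'.Nonempty →
          P6 A ^ 2 ≤ P6 A₀ ^ 2 + P6 A' * P6 A := by
        intro k A A₀ A' hA₀ hA₀A hA'A hcA hd0 hd1 hA'
        have h := os (a₀ := (A₀.card : ℝ)) (a' := (A'.card : ℝ)) (R₀ := R A₀) (R' := R A')
          (ρ := R A) (by exact_mod_cast hA₀.card_pos) (by exact_mod_cast hA'.card_pos)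
          (lt_of_lt_of_le one_pos (one_le_R hA₀)) (lt_of_lt_of_le one_pos (one_le_R hA'))
          (lt_of_lt_of_le one_pos (one_le_R (hA₀.mono hA₀A)))
          (fun τ hτ => R_mix hA₀ hA₀A hA'A (co6_pow hp hp5 (k + 1)) hd0 hd1 hτ)
        have e : (A₀.card : ℝ) + (A'.card : ℝ) = (A.card : ℝ) := by exact_mod_cast hcA
        rw [e] at h
        exact h
      have hOSA := hOS k A A₀ A' hA₀ hA₀A hA'A hcA hdA0 hdA1
      have hOSB := hOS l B B₀ B' hB₀ hB₀B hB'B hcB hdB0 hdB1
      have hcA₀ := hA₀.card_pos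
      have hcB₀ := hB₀.card_pos
      -- valuations of products
      have hv : ∀ a ∈ A, ∀ b ∈ B, padicValInt p (a * b) = padicValInt p a + padicValInt p b :=
        fun a ha b hb => padicValInt.mul (h0 a (hAX a ha)) (h0 b (hBX b hb))
      have hv0 : ∀ u ∈ A₀ * B₀, padicValInt p u = k + l := by
        intro u hu
        obtain ⟨a, ha, b, hb, rfl⟩ := Finset.mem_mul.1 hu
        rw [hv a (hA₀A ha) b (hB₀B hb), hvA₀ a ha, hvB₀ b hb]
      have hv1 : ∀ u ∈ A' * B, k + l < padicValInt p u := by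
        intro u hu
        obtain ⟨a, ha, b, hb, rfl⟩ := Finset.mem_mul.1 hu
        rw [hv a (hA'A ha) b hb]
        have h1 := hvA' a ha
        have h2 := hvB b hb
        omega
      have hv2 : ∀ u ∈ A * B', k + l < padicValInt p u := by
        intro u hu
        obtain ⟨a, ha, b, hb, rfl⟩ := Finset.mem_mul.1 hu
        rw [hv a ha b (hB'B hb)]
        have h1 := hvA a ha
        have h2 := hvB' b hb
        omega
      have hs0 : A₀ * B₀ ⊆ A * B := Finset.mul_subset_mul hA₀A hB₀B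
      have hs1 : A' * B ⊆ A * B := Finset.mul_subset_mul hA'A subset_rfl
      have hs2 : A * B' ⊆ A * B := Finset.mul_subset_mul subset_rfl hB'B
      have hc1 := card_split hs0 hs1 hv0 hv1
      have hc2 := card_split hs0 hs2 hv0 hv2
      have hXA₀ : ∀ a ∈ A₀, a ∈ X := fun a ha => hAX a (hA₀A ha)
      have hXA' : ∀ a ∈ A', a ∈ X := fun a ha => hAX a (hA'A ha)
      have hXB₀ : ∀ b ∈ B₀, b ∈ X := fun b hb => hBX b (hB₀B hb)
      have hXB' : ∀ b ∈ B', b ∈ X := fun b hb => hBX b (hB'B hb)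
      rcases A'.eq_empty_or_nonempty with hA' | hA'
      · have hA₀e := heA hA'
        rcases B'.eq_empty_or_nonempty with hB' | hB'
        · exfalso
          have hB₀e := heB hB'
          apply hnc
          constructor
          · intro a ha a' ha'
            rw [hvA₀ a (hA₀e ▸ ha), hvA₀ a' (hA₀e ▸ ha')]
          · intro b hb b' hb'
            rw [hvB₀ b (hB₀e ▸ hb), hvB₀ b' (hB₀e ▸ hb')]
        · -- only `B` splits
          have hcB' := hB'.card_pos
          rw [hA₀e] at hc2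
          have ih1 := ih A B₀ (by omega) hA hB₀ hAX hXB₀
          have ih2 := ih A B' (by omega) hA hB' hAX hXB'
          have := step_one (P6_nonneg A) (P6_pos hB) (P6_nonneg B₀) (P6_nonneg B') hκ (hOSB hB')
            ih1 ih2
          linarith
      · have hcA' := hA'.card_pos
        rcases B'.eq_empty_or_nonempty with hB' | hB'
        · -- only `A` splits
          have hB₀e := heB hB'
          rw [hB₀e] at hc1
          have ih1 := ih A₀ B (by omega) hA₀ hB hXA₀ hBX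
          have ih2 := ih A' B (by omega) hA' hB hXA' hBX
          rw [mul_comm (P6 A₀)] at ih1
          rw [mul_comm (P6 A')] at ih2
          have := step_one (P6_nonneg B) (P6_pos hA) (P6_nonneg A₀) (P6_nonneg A') hκ (hOSA hA')
            ih1 ih2
          rw [mul_comm (P6 A)]
          linarith
        · have hcB' := hB'.card_pos
          have ih0 := ih A₀ B₀ (by omega) hA₀ hB₀ hXA₀ hXB₀
          have ih1 := ih A' B (by omega) hA' hB hXA' hBX
          have ih2 := ih A B' (by omega) hA hB' hAX hXB'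
          have := step_two (N₀ := ((A₀ * B₀).card : ℝ))
            (M := ((A * B).card : ℝ) - ((A₀ * B₀).card : ℝ))
            (P6_pos hA) (P6_pos hB) (P6_nonneg A₀) (P6_nonneg B₀) hκ
            (hOSA hA') (hOSB hB') ih0 (by linarith) (by linarith) (Nat.cast_nonneg _)
          linarith

/-- the energy form of the theorem -/
theorem main6_R {c : ℝ} (hc : 0 < c) (X : Set ℤ) (h0 : ∀ x ∈ X, x ≠ 0)
    (hX : ∀ C : Finset ℤ, C.Nonempty → (∀ a ∈ C, a ∈ X) → (∀ p : ℕ, p.Prime → EqV p C) →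
      c * (C.card : ℝ) ≤ R C)
    (A B : Finset ℤ) (hA : A.Nonempty) (hB : B.Nonempty) (hAX : ∀ a ∈ A, a ∈ X)
    (hBX : ∀ b ∈ B, b ∈ X) :
    (c / 9) ^ 4 * ((A.card : ℝ) * B.card) ^ 5 ≤ (R A * R B) ^ 2 * ((A * B).card : ℝ) ^ 6 := by
  set d : ℝ := c / 9 with hd
  have hd0 : 0 < d := by positivity
  set κ : ℝ := (d ^ 4) ^ ((1 : ℝ) / 6) with hκdef
  have hκ : 0 ≤ κ := Real.rpow_nonneg (by positivity) _
  have hκ6 : κ ^ 6 = d ^ 4 := by
    rw [hκdef, ← Real.rpow_natCast, ← Real.rpow_mul (by positivity)]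
    norm_num
  have key : ∀ A B : Finset ℤ,
      (κ * (P6 A * P6 B)) ^ 6 = d ^ 4 * (((A.card : ℝ) * B.card) ^ 5 / (R A * R B) ^ 2) := by
    intro A B
    rw [mul_pow, mul_pow, hκ6, P6_pow, P6_pow, mul_pow, mul_pow, div_mul_div_comm]
  have h := main6 X κ hκ h0 (by
    intro A B hA hB hAX hBX hEA hEB
    have hRA := base_R hc.le X h0 hX A hA hAX hEA
    have hRB := base_R hc.le X h0 hX B hB hBX hEB
    rw [← hd] at hRA hRB
    apply le_of_pow_le_pow_left₀ (n := 6) (by norm_num) (Nat.cast_nonneg _)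
    rw [key A B]
    have ha : (0 : ℝ) < A.card := by exact_mod_cast hA.card_pos
    have hb : (0 : ℝ) < B.card := by exact_mod_cast hB.card_pos
    have hAm : (A.card : ℝ) ≤ ((A * B).card : ℝ) := by
      obtain ⟨b, hb⟩ := hB
      have : (A.image (fun a => a * b)).card = A.card :=
        Finset.card_image_of_injective _ fun x y hxy => mul_right_cancel₀ (h0 b (hBX b hb)) hxy
      rw [← this]
      exact_mod_cast Finset.card_le_card (fun x hx => by
        obtain ⟨a, ha, rfl⟩ := Finset.mem_image.1 hx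
        exact Finset.mul_mem_mul ha hb)
    have hBm : (B.card : ℝ) ≤ ((A * B).card : ℝ) := by
      obtain ⟨a, ha⟩ := hA
      have : (B.image (fun b => a * b)).card = B.card :=
        Finset.card_image_of_injective _ fun x y hxy => mul_left_cancel₀ (h0 a (hAX a ha)) hxy
      rw [← this]
      exact_mod_cast Finset.card_le_card (fun x hx => by
        obtain ⟨b, hb, rfl⟩ := Finset.mem_image.1 hx
        exact Finset.mul_mem_mul ha hb)
    have hRR : d ^ 2 * ((A.card : ℝ) * B.card) ≤ R A * R B := by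
      calc d ^ 2 * ((A.card : ℝ) * B.card) = d * A.card * (d * B.card) := by ring
        _ ≤ R A * R B := mul_le_mul hRA hRB (by positivity)
          (le_trans (by positivity) hRA)
    have hpos : 0 < d ^ 2 * ((A.card : ℝ) * B.card) := by positivity
    have h1 : d ^ 4 * (((A.card : ℝ) * B.card) ^ 5 / (R A * R B) ^ 2) ≤
        d ^ 4 * (((A.card : ℝ) * B.card) ^ 5 / (d ^ 2 * ((A.card : ℝ) * B.card)) ^ 2) := by
      apply mul_le_mul_of_nonneg_left _ (by positivity)
      apply div_le_div_of_nonneg_left (by positivity) (by positivity)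
      exact pow_le_pow_left₀ hpos.le hRR 2
    have h2 : d ^ 4 * (((A.card : ℝ) * B.card) ^ 5 / (d ^ 2 * ((A.card : ℝ) * B.card)) ^ 2) =
        ((A.card : ℝ) * B.card) ^ 3 := by
      field_simp
    have h3 : ((A.card : ℝ) * B.card) ^ 3 ≤ (((A * B).card : ℝ) * ((A * B).card : ℝ)) ^ 3 :=
      pow_le_pow_left₀ (by positivity) (mul_le_mul hAm hBm hb.le (Nat.cast_nonneg _)) 3
    calc d ^ 4 * (((A.card : ℝ) * B.card) ^ 5 / (R A * R B) ^ 2)
        ≤ ((A.card : ℝ) * B.card) ^ 3 := h1.trans (le_of_eq h2)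
      _ ≤ (((A * B).card : ℝ) * ((A * B).card : ℝ)) ^ 3 := h3
      _ = ((A * B).card : ℝ) ^ 6 := by ring) (A.card + B.card) A B le_rfl hA hB hAX hBX
  have h1 := pow_le_pow_left₀ (mul_nonneg hκ (mul_nonneg (P6_nonneg A) (P6_nonneg B))) h 6
  rw [key A B] at h1
  have hRA := one_le_R hA
  have hRB := one_le_R hB
  have hRR : 0 < R A * R B := by nlinarith
  rw [← mul_div_assoc, div_le_iff₀ (by positivity)] at h1
  linarith

end Pool.Agent.W858.SP
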