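import Pool.Agent.H633R4.SP.Fin
import Pool.Agent.W858.SP.Ind

/-!
The sum-product inequality `(|A| |B|) ^ 5 ≤ C |A + B| ^ 2 |A B| ^ 6`.
-/

set_option autoImplicit false

namespace Pool.Agent.W858.SP

open Finset H633R4.SP
open scoped Pointwise

theorem natAbs_of_EqV {C : Finset ℤ} (h0 : ∀ a ∈ C, a ≠ 0) (h : ∀ p : ℕ, p.Prime → EqV p C) :
    ∀ a ∈ C, ∀ a' ∈ C, a.natAbs = a'.natAbs :=
  fun a ha a' ha' => natAbs_eq_of_padic (h0 a ha) (h0 a' ha') fun p hp => h p hp a ha a' ha'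

theorem gen {c : ℝ} (hc : 0 < c) (K : ℕ) (hK : (1 : ℝ) ≤ K * (c / 9) ^ 4)
    (X : Set ℤ) (h0 : ∀ x ∈ X, x ≠ 0)
    (hX : ∀ C : Finset ℤ, C.Nonempty → (∀ a ∈ C, a ∈ X) → (∀ p : ℕ, p.Prime → EqV p C) →
      c * (C.card : ℝ) ≤ R C)
    (A B : Finset ℤ) (hAX : ∀ a ∈ A, a ∈ X) (hBX : ∀ b ∈ B, b ∈ X) :
    (A.card * B.card) ^ 5 ≤ K * ((A + B).card ^ 2 * (A * B).card ^ 6) ∧
    (A.card * B.card) ^ 5 ≤ K * ((A - B).card ^ 2 * (A * B).card ^ 6) := by
  rcases A.eq_empty_or_nonempty with hA | hA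
  · subst hA; simp
  rcases B.eq_empty_or_nonempty with hB | hB
  · subst hB; simp
  have h := main6_R hc X h0 hX A B hA hB hAX hBX
  obtain ⟨h1, h2⟩ := R_mul_le hA hB
  have hRA := one_le_R hA
  have hRB := one_le_R hB
  have hRR : 0 ≤ R A * R B := by nlinarith
  have hP : (0 : ℝ) ≤ ((A * B).card : ℝ) ^ 6 := by positivity
  have hab : (0 : ℝ) ≤ ((A.card : ℝ) * B.card) ^ 5 := by positivity
  have hK0 : (0 : ℝ) ≤ K := Nat.cast_nonneg _
  have key : ∀ s : ℕ, R A * R B ≤ (s : ℝ) →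
      (A.card * B.card) ^ 5 ≤ K * (s ^ 2 * (A * B).card ^ 6) := by
    intro s hs
    have h3 : ((A.card : ℝ) * B.card) ^ 5 ≤ (K : ℝ) * ((s : ℝ) ^ 2 * ((A * B).card : ℝ) ^ 6) := by
      calc ((A.card : ℝ) * B.card) ^ 5 ≤ K * (c / 9) ^ 4 * ((A.card : ℝ) * B.card) ^ 5 := by
            nlinarith
        _ = K * ((c / 9) ^ 4 * ((A.card : ℝ) * B.card) ^ 5) := by ring
        _ ≤ K * ((R A * R B) ^ 2 * ((A * B).card : ℝ) ^ 6) := mul_le_mul_of_nonneg_left h hK0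
        _ ≤ K * ((s : ℝ) ^ 2 * ((A * B).card : ℝ) ^ 6) := by
            apply mul_le_mul_of_nonneg_left _ hK0
            exact mul_le_mul_of_nonneg_right (pow_le_pow_left₀ hRR hs 2) hP
    exact_mod_cast h3
  exact ⟨key _ h1, key _ h2⟩

/-- positive integers -/
theorem fin_pos3 (A B : Finset ℤ) (hA : ∀ a ∈ A, 0 < a) (hB : ∀ b ∈ B, 0 < b) :
    (A.card * B.card) ^ 5 ≤ 6561 * ((A + B).card ^ 2 * (A * B).card ^ 6) ∧
    (A.card * B.card) ^ 5 ≤ 6561 * ((A - B).card ^ 2 * (A * B).card ^ 6) := by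
  refine gen (c := 1) one_pos 6561 (by norm_num) {x | 0 < x} (fun x hx => ne_of_gt hx) ?_ A B
    hA hB
  intro C hC hCX hE
  have h1 := natAbs_of_EqV (fun a ha => ne_of_gt (hCX a ha)) hE
  have h2 : C.card ≤ 1 := Finset.card_le_one.2 fun a ha a' ha' => by
    have := h1 a ha a' ha'
    have e1 : 0 < a := hCX a ha
    have e2 : 0 < a' := hCX a' ha'
    omega
  have h3 : (C.card : ℝ) ≤ 1 := by exact_mod_cast h2
  have := one_le_R hC
  linarith

/-- nonzero integers -/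
theorem fin_ne3 (A B : Finset ℤ) (hA : (0 : ℤ) ∉ A) (hB : (0 : ℤ) ∉ B) :
    (A.card * B.card) ^ 5 ≤ 104976 * ((A + B).card ^ 2 * (A * B).card ^ 6) ∧
    (A.card * B.card) ^ 5 ≤ 104976 * ((A - B).card ^ 2 * (A * B).card ^ 6) := by
  refine gen (c := 1 / 2) (by norm_num) 104976 (by norm_num) {x | x ≠ 0} (fun x hx => hx) ?_ A B
    (fun a ha h => hA (h ▸ ha)) (fun b hb h => hB (h ▸ hb))
  intro C hC hCX hE
  have h2 := card_le_two (natAbs_of_EqV (fun a ha => hCX a ha) hE)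
  have h3 : (C.card : ℝ) ≤ 2 := by exact_mod_cast h2
  have := one_le_R hC
  linarith

/-- all finite sets of integers -/
theorem fin_all3 (A : Finset ℤ) :
    A.card ^ 5 ≤ 10368 * ((A + A).card * (A * A).card ^ 3) ∧
    A.card ^ 5 ≤ 10368 * ((A - A).card * (A * A).card ^ 3) := by
  classical
  obtain ⟨h1, h2⟩ := fin_ne3 (A.erase 0) (A.erase 0) (Finset.notMem_erase _ _)
    (Finset.notMem_erase _ _)
  have hs : A.erase 0 ⊆ A := Finset.erase_subset _ _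
  have hm : (A.erase 0 * A.erase 0).card ≤ (A * A).card :=
    Finset.card_le_card (Finset.mul_subset_mul hs hs)
  have ha : (A.erase 0 + A.erase 0).card ≤ (A + A).card :=
    Finset.card_le_card (Finset.add_subset_add hs hs)
  have hd : (A.erase 0 - A.erase 0).card ≤ (A - A).card :=
    Finset.card_le_card (Finset.sub_subset_sub hs hs)
  have hc : A.card - 1 ≤ (A.erase 0).card := Finset.pred_card_le_card_erase
  rcases A.eq_empty_or_nonempty with hA | hA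
  · subst hA; simp
  have p1 := (hA.add hA).card_pos
  have p2 := (hA.sub hA).card_pos
  have p3 := (hA.mul hA).card_pos
  rcases Nat.eq_zero_or_pos (A.erase 0).card with h0 | h0
  · have hA1 : A.card ≤ 1 := by omega
    have h6 : A.card ^ 5 ≤ 1 := by
      calc A.card ^ 5 ≤ 1 ^ 5 := Nat.pow_le_pow_left hA1 5
        _ = 1 := by norm_num
    have q1 : 1 ≤ (A + A).card * (A * A).card ^ 3 := Nat.mul_pos p1 (pow_pos p3 3)
    have q2 : 1 ≤ (A - A).card * (A * A).card ^ 3 := Nat.mul_pos p2 (pow_pos p3 3)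
    omega
  · have hle : A.card ≤ 2 * (A.erase 0).card := by omega
    have h6 : (A.card ^ 5) ^ 2 ≤ 1024 * ((A.erase 0).card * (A.erase 0).card) ^ 5 := by
      calc (A.card ^ 5) ^ 2 = A.card ^ 10 := by ring
        _ ≤ (2 * (A.erase 0).card) ^ 10 := Nat.pow_le_pow_left hle 10
        _ = 1024 * ((A.erase 0).card * (A.erase 0).card) ^ 5 := by ring
    have key : ∀ s s' : ℕ, s' ≤ s →
        ((A.erase 0).card * (A.erase 0).card) ^ 5 ≤
          104976 * (s' ^ 2 * (A.erase 0 * A.erase 0).card ^ 6) →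
        A.card ^ 5 ≤ 10368 * (s * (A * A).card ^ 3) := by
      intro s s' hs' h
      have h7 : (A.card ^ 5) ^ 2 ≤ (10368 * (s * (A * A).card ^ 3)) ^ 2 := by
        calc (A.card ^ 5) ^ 2 ≤ 1024 * ((A.erase 0).card * (A.erase 0).card) ^ 5 := h6
          _ ≤ 1024 * (104976 * (s' ^ 2 * (A.erase 0 * A.erase 0).card ^ 6)) :=
            Nat.mul_le_mul le_rfl h
          _ ≤ 1024 * (104976 * (s ^ 2 * (A * A).card ^ 6)) := by
            apply Nat.mul_le_mul le_rfl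
            apply Nat.mul_le_mul le_rfl
            exact Nat.mul_le_mul (Nat.pow_le_pow_left hs' 2) (Nat.pow_le_pow_left hm 6)
          _ = (10368 * (s * (A * A).card ^ 3)) ^ 2 := by ring
      exact (Nat.pow_le_pow_iff_left (by norm_num)).1 h7
    exact ⟨key _ _ ha h1, key _ _ hd h2⟩

/-- exponent form -/
theorem fin_exp3 (A : Finset ℤ) (τ : ℝ) (hA : A.Nonempty)
    (h : ((A * A).card : ℝ) ≤ (A.card : ℝ) ^ (1 + τ)) :
    (A.card : ℝ) ^ (2 - 3 * τ) ≤ 10368 * ((A + A).card : ℝ) ∧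
    (A.card : ℝ) ^ (2 - 3 * τ) ≤ 10368 * ((A - A).card : ℝ) := by
  obtain ⟨h1, h2⟩ := fin_all3 A
  have hpos : (0 : ℝ) < (A.card : ℝ) := by exact_mod_cast hA.card_pos
  have h4 : ((A * A).card : ℝ) ^ 3 ≤ (A.card : ℝ) ^ (3 + 3 * τ) := by
    calc ((A * A).card : ℝ) ^ 3 ≤ ((A.card : ℝ) ^ (1 + τ)) ^ 3 :=
          pow_le_pow_left₀ (Nat.cast_nonneg _) h 3
      _ = (A.card : ℝ) ^ (3 + 3 * τ) := by
          rw [← Real.rpow_natCast, ← Real.rpow_mul hpos.le]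
          congr 1
          push_cast
          ring
  have e : (A.card : ℝ) ^ (5 : ℕ) = (A.card : ℝ) ^ (2 - 3 * τ) * (A.card : ℝ) ^ (3 + 3 * τ) := by
    rw [← Real.rpow_add hpos, ← Real.rpow_natCast]
    congr 1
    push_cast
    ring
  have hp : (0 : ℝ) < (A.card : ℝ) ^ (3 + 3 * τ) := Real.rpow_pos_of_pos hpos _
  have key : ∀ s : ℕ, A.card ^ 5 ≤ 10368 * (s * (A * A).card ^ 3) →
      (A.card : ℝ) ^ (2 - 3 * τ) ≤ 10368 * (s : ℝ) := by
    intro s hs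
    have h1' : (A.card : ℝ) ^ (5 : ℕ) ≤ 10368 * ((s : ℝ) * ((A * A).card : ℝ) ^ 3) := by
      exact_mod_cast hs
    rw [e] at h1'
    have : 10368 * ((s : ℝ) * ((A * A).card : ℝ) ^ 3) ≤
        10368 * (s : ℝ) * (A.card : ℝ) ^ (3 + 3 * τ) := by
      rw [← mul_assoc]
      exact mul_le_mul_of_nonneg_left h4 (by positivity)
    exact le_of_mul_le_mul_right (h1'.trans this) hp
  exact ⟨key _ h1, key _ h2⟩

end Pool.Agent.W858.SP
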