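import Pool.Agent.W858.SP.Mass

/-!
Linear relations between the masses of families of additive quadruples of non-multiples of `m`,
where `m` is coprime to `6`.
-/

set_option autoImplicit false

namespace Pool.Agent.W858.SP

open Finset H633R4.SP

theorem pt2 {e A B Y : Prop} [Decidable (e ∧ A)] [Decidable (e ∧ B)] [Decidable (e ∧ Y)]
    (p : ℝ) (hp : 0 ≤ p) (hA : e → A → Y) (hB : e → B → Y) (hAB : e → p ≠ 0 → A → B → False) :
    (if e ∧ A then p else 0) + (if e ∧ B then p else 0) ≤ if e ∧ Y then p else 0 := by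
  by_cases he : e
  · by_cases h0 : p = 0
    · simp [h0]
    · by_cases h1 : A
      · have h2 : ¬ B := fun h => hAB he h0 h1 h
        have h3 := hA he h1
        simp [he, h1, h2, h3]
      · by_cases h2 : B
        · have h3 := hB he h2
          simp [he, h1, h2, h3]
        · simp only [he, h1, h2, and_false, if_false, true_and]
          split_ifs <;> linarith
  · simp [he]

theorem pt3 {e A B C Y : Prop} [Decidable (e ∧ A)] [Decidable (e ∧ B)] [Decidable (e ∧ C)]
    [Decidable (e ∧ Y)]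
    (p : ℝ) (hp : 0 ≤ p) (hA : e → A → Y) (hB : e → B → Y) (hC : e → C → Y)
    (hAB : e → p ≠ 0 → A → B → False) (hAC : e → p ≠ 0 → A → C → False)
    (hBC : e → p ≠ 0 → B → C → False) :
    (if e ∧ A then p else 0) + (if e ∧ B then p else 0) + (if e ∧ C then p else 0) ≤
      if e ∧ Y then p else 0 := by
  classical
  have h1 := pt2 (e := e) (A := A) (B := B) (Y := A ∨ B) p hp (fun _ h => Or.inl h)
    (fun _ h => Or.inr h) hAB
  have h2 := pt2 (e := e) (A := A ∨ B) (B := C) (Y := Y) p hp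
    (fun he h => h.elim (hA he) (hB he)) hC
    (fun he h0 h h' => h.elim (fun h => hAC he h0 h h') (fun h => hBC he h0 h h'))
  linarith

theorem pt4 {e A B C D Y : Prop} [Decidable (e ∧ A)] [Decidable (e ∧ B)] [Decidable (e ∧ C)]
    [Decidable (e ∧ D)] [Decidable (e ∧ Y)]
    (p : ℝ) (hp : 0 ≤ p) (hA : e → A → Y) (hB : e → B → Y) (hC : e → C → Y) (hD : e → D → Y)
    (hAB : e → p ≠ 0 → A → B → False) (hAC : e → p ≠ 0 → A → C → False)
    (hAD : e → p ≠ 0 → A → D → False) (hBC : e → p ≠ 0 → B → C → False)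
    (hBD : e → p ≠ 0 → B → D → False) (hCD : e → p ≠ 0 → C → D → False) :
    (if e ∧ A then p else 0) + (if e ∧ B then p else 0) + (if e ∧ C then p else 0) +
      (if e ∧ D then p else 0) ≤ if e ∧ Y then p else 0 := by
  classical
  have h1 := pt3 (e := e) (A := A) (B := B) (C := C) (Y := A ∨ B ∨ C) p hp (fun _ h => Or.inl h)
    (fun _ h => Or.inr (Or.inl h)) (fun _ h => Or.inr (Or.inr h)) hAB hAC hBC
  have h2 := pt2 (e := e) (A := A ∨ B ∨ C) (B := D) (Y := Y) p hp
    (fun he h => h.elim (hA he) (fun h => h.elim (hB he) (hC he))) hD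
    (fun he h0 h h' => h.elim (fun h => hAD he h0 h h')
      (fun h => h.elim (fun h => hBD he h0 h h') (fun h => hCD he h0 h h')))
  linarith

/-- inclusion and exclusion for three events without a common point -/
theorem ptie {e X Y Z : Prop} [Decidable (e ∧ X)] [Decidable (e ∧ Y)] [Decidable (e ∧ Z)]
    [Decidable (e ∧ True)] [Decidable (e ∧ Y ∧ Z)] [Decidable (e ∧ X ∧ Y)] [Decidable (e ∧ X ∧ Z)]
    (p : ℝ) (hp : 0 ≤ p) (h : e → p ≠ 0 → X → Y → Z → False) :
    (if e ∧ X then p else 0) + (if e ∧ Y then p else 0) + (if e ∧ Z then p else 0) ≤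
      (if e ∧ True then p else 0) + (if e ∧ Y ∧ Z then p else 0) +
        (if e ∧ X ∧ Y then p else 0) + (if e ∧ X ∧ Z then p else 0) := by
  by_cases he : e
  · by_cases h0 : p = 0
    · simp [h0]
    · by_cases h1 : X <;> by_cases h2 : Y <;> by_cases h3 : Z
      · exact absurd (h he h0 h1 h2 h3) (fun h => h)
      all_goals
        simp [he, h1, h2, h3]
        try linarith
  · simp [he]

section

variable (T : Finset ℤ) (f : ℤ → ℝ) (m : ℤ)

/-- the mass of `m ∣ w + x` -/
noncomputable def mW : ℝ := M T f (fun w x _ _ => m ∣ w + x)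

/-- the mass of `m ∣ w - y` -/
noncomputable def mV : ℝ := M T f (fun w _ y _ => m ∣ w - y)

/-- the mass of `w`, `x`, `y`, `z` all congruent -/
noncomputable def m0 : ℝ := M T f (fun w _ y z => m ∣ w - y ∧ m ∣ w - z)

/-- the mass of `x ≡ - w`, `y ≡ w`, `z ≡ - w` -/
noncomputable def m1 : ℝ := M T f (fun w x y _ => m ∣ w + x ∧ m ∣ w - y)

/-- the mass of `x ≡ z ≡ 2 w`, `y ≡ w` -/
noncomputable def m2 : ℝ := M T f (fun w x y z => m ∣ z - 2 * w ∧ m ∣ x - 2 * y)

end

theorem mV' (T : Finset ℤ) (f : ℤ → ℝ) (m : ℤ) :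
    M T f (fun w _ _ z => m ∣ w - z) = mV T f m := by
  classical
  unfold mV
  rw [M_eq, M_eq, ← S4_swap34]
  refine S4_congr T fun w x y z => ?_
  rw [add_comm z y, mul_comm (f z) (f y)]

theorem m1' (T : Finset ℤ) (f : ℤ → ℝ) (m : ℤ) :
    M T f (fun w x _ z => m ∣ w + x ∧ m ∣ w - z) = m1 T f m := by
  classical
  unfold m1
  rw [M_eq, M_eq, ← S4_swap34]
  refine S4_congr T fun w x y z => ?_
  rw [add_comm z y, mul_comm (f z) (f y)]

theorem m2' (T : Finset ℤ) (f : ℤ → ℝ) (m : ℤ) :
    M T f (fun w x y z => m ∣ y - 2 * x ∧ m ∣ w - 2 * z) = m2 T f m := by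
  classical
  unfold m2
  rw [M_eq, M_eq, ← S4_swap34, ← S4_swap12]
  refine S4_congr T fun w x y z => ?_
  rw [add_comm z y, mul_comm (f z) (f y), add_comm x w, mul_comm (f x) (f w)]

/-- the standing hypotheses: nonnegative weights on non-multiples of `m`, and `m` coprime
to `6` in a weak sense -/
structure Good (f : ℤ → ℝ) (m : ℤ) : Prop where
  nn : ∀ n, 0 ≤ f n
  nd : ∀ n, f n ≠ 0 → ¬ m ∣ n
  h2 : ∀ n, m ∣ 2 * n → m ∣ n
  h3 : ∀ n, m ∣ 3 * n → m ∣ n

variable {T : Finset ℤ} {f : ℤ → ℝ} {m : ℤ}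

theorem Good.w (h : Good f m) {w x y z : ℤ} (h0 : f w * f x * (f y * f z) ≠ 0) : ¬ m ∣ w := by
  apply h.nd
  intro h1
  rw [h1] at h0
  simp at h0

theorem Good.p (h : Good f m) (w x y z : ℤ) : 0 ≤ f w * f x * (f y * f z) :=
  mul_nonneg (mul_nonneg (h.nn w) (h.nn x)) (mul_nonneg (h.nn y) (h.nn z))

theorem Good.xyz (h : Good f m) {w x y z : ℤ} (e : w + x = y + z) (hX : m ∣ w + x)
    (hY : m ∣ w - y) (hZ : m ∣ w - z) : m ∣ w := by
  apply h.h2
  have := dvd_add (dvd_add hY hZ) hX
  rwa [show w - y + (w - z) + (w + x) = 2 * w by rw [e]; ring] at this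

theorem cons2 (h : Good f m) :
    mW T f m + 2 * mV T f m ≤ E T f f f f + m0 T f m + 2 * m1 T f m := by
  classical
  have e1 := mV' T f m
  have e2 := m1' T f m
  have e3 := M_true T f
  have key : mW T f m + mV T f m + M T f (fun w _ _ z => m ∣ w - z) ≤
      M T f (fun _ _ _ _ => True) + m0 T f m + m1 T f m +
        M T f (fun w x _ z => m ∣ w + x ∧ m ∣ w - z) := by
    unfold mW mV m0 m1
    simp only [M_eq]
    rw [← S4_add, ← S4_add, ← S4_add, ← S4_add, ← S4_add]
    refine S4_mono T fun w x y z => ?_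
    exact ptie _ (h.p w x y z) fun e h0 hX hY hZ => h.w h0 (h.xyz e hX hY hZ)
  linarith

theorem cons3 (h : Good f m) : 2 * m1 T f m ≤ mW T f m := by
  classical
  have e2 := m1' T f m
  have key : m1 T f m + M T f (fun w x _ z => m ∣ w + x ∧ m ∣ w - z) ≤ mW T f m := by
    unfold mW m1
    simp only [M_eq]
    rw [← S4_add]
    refine S4_mono T fun w x y z => ?_
    exact pt2 _ (h.p w x y z) (fun _ h1 => h1.1) (fun _ h1 => h1.1)
      fun e h0 h1 h2 => h.w h0 (h.xyz e h1.1 h1.2 h2.2)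
  linarith

theorem cons1 (h : Good f m) : m0 T f m + m1 T f m + 2 * m2 T f m ≤ mV T f m := by
  classical
  have e2 := m2' T f m
  have key : m0 T f m + m1 T f m + m2 T f m +
      M T f (fun w x y z => m ∣ y - 2 * x ∧ m ∣ w - 2 * z) ≤ mV T f m := by
    unfold mV m0 m1 m2
    simp only [M_eq]
    rw [← S4_add, ← S4_add, ← S4_add]
    refine S4_mono T fun w x y z => ?_
    have hC : w + x = y + z → m ∣ z - 2 * w ∧ m ∣ x - 2 * y → m ∣ w - y := by
      intro e h1
      have := dvd_sub h1.2 h1.1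
      rwa [show x - 2 * y - (z - 2 * w) = w - y by linarith] at this
    have hD : w + x = y + z → m ∣ y - 2 * x ∧ m ∣ w - 2 * z → m ∣ w - y := by
      intro e h1
      have := dvd_sub h1.1 h1.2
      rwa [show y - 2 * x - (w - 2 * z) = w - y by linarith] at this
    refine pt4 _ (h.p w x y z) (fun _ h1 => h1.1) (fun _ h1 => h1.2) hC hD ?_ ?_ ?_ ?_ ?_ ?_
    · exact fun e h0 h1 h2 => h.w h0 (h.xyz e h2.1 h1.1 h1.2)
    · intro e h0 h1 h2
      apply h.w h0
      have := dvd_add h1.2 h2.1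
      rwa [show w - z + (z - 2 * w) = -w by ring, dvd_neg] at this
    · intro e h0 h1 h2
      apply h.w h0
      have := dvd_sub (dvd_add h1.2 h1.2) h2.2
      rwa [show w - z + (w - z) - (w - 2 * z) = w by ring] at this
    · intro e h0 h1 h2
      apply h.w h0
      apply h.h3
      have := dvd_add (dvd_sub h1.1 h2.2) (dvd_add h1.2 h1.2)
      rwa [show w + x - (x - 2 * y) + (w - y + (w - y)) = 3 * w by ring] at this
    · intro e h0 h1 h2
      apply h.w h0
      apply h.h3
      have := dvd_add (dvd_add (dvd_add h1.1 h1.1) h2.1) h1.2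
      rwa [show w + x + (w + x) + (y - 2 * x) + (w - y) = 3 * w by ring] at this
    · intro e h0 h1 h2
      apply h.w h0
      apply h.h3
      have := dvd_add (dvd_add h1.1 h1.1) h2.2
      rwa [show z - 2 * w + (z - 2 * w) + (w - 2 * z) = -(3 * w) by ring, dvd_neg] at this
  linarith

theorem emod_iff (m a b : ℤ) : a % m = b % m ↔ m ∣ a - b := by
  have h : a % m = b % m ↔ b ≡ a [ZMOD m] := by
    unfold Int.ModEq
    exact eq_comm
  rw [h, Int.modEq_iff_dvd]

theorem cons4 (h : Good f m) : m1 T f m ≤ m0 T f m := by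
  classical
  have hcs := cs4 T (fun a b : ℤ => ((a - b, a % m) : ℤ × ℤ)) (fun c d => (c - d, (-c) % m))
    (fun a b => if m ∣ a - b then f a * f b else 0) (fun a b => if m ∣ a - b then f a * f b else 0)
  have e1 : (S4 T fun a b c d => if ((a - b, a % m) : ℤ × ℤ) = (c - d, (-c) % m) then
      (if m ∣ a - b then f a * f b else 0) * (if m ∣ c - d then f c * f d else 0) else 0) =
      m1 T f m := by
    unfold m1
    rw [M_eq]
    refine Eq.trans (S4_congr T fun a b c d => ?_) (S4_permA T _)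
    by_cases h1 : ((a - b, a % m) : ℤ × ℤ) = (c - d, (-c) % m)
    · rw [if_pos h1]
      rw [Prod.mk.injEq, emod_iff] at h1
      by_cases h2 : m ∣ a - b
      · have h3 : m ∣ c - d := h1.1 ▸ h2
        have h4 : m ∣ a + d := by
          have := dvd_sub h1.2 h3
          rwa [show a - -c - (c - d) = a + d by ring] at this
        rw [if_pos h2, if_pos h3, if_pos ⟨by linarith [h1.1], h4, h2⟩]
        ring
      · rw [if_neg h2, zero_mul, if_neg (fun h' => h2 h'.2.2)]
    · rw [if_neg h1, if_neg]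
      rintro ⟨h2, h3, h4⟩
      apply h1
      rw [Prod.mk.injEq, emod_iff]
      refine ⟨by linarith, ?_⟩
      have := dvd_add h3 h4
      rwa [show a + d + (a - b) = a - -c by linarith] at this
  have e2 : (S4 T fun a b c d => if ((a - b, a % m) : ℤ × ℤ) = (c - d, c % m) then
      (if m ∣ a - b then f a * f b else 0) * (if m ∣ c - d then f c * f d else 0) else 0) =
      m0 T f m := by
    unfold m0
    rw [M_eq]
    refine Eq.trans (S4_congr T fun a b c d => ?_) (S4_permA T _)
    by_cases h1 : ((a - b, a % m) : ℤ × ℤ) = (c - d, c % m)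
    · rw [if_pos h1]
      rw [Prod.mk.injEq, emod_iff] at h1
      by_cases h2 : m ∣ a - b
      · have h3 : m ∣ c - d := h1.1 ▸ h2
        rw [if_pos h2, if_pos h3, if_pos ⟨by linarith [h1.1], h2, h1.2⟩]
        ring
      · rw [if_neg h2, zero_mul, if_neg (fun h' => h2 h'.2.1)]
    · rw [if_neg h1, if_neg]
      rintro ⟨h2, h3, h4⟩
      apply h1
      rw [Prod.mk.injEq, emod_iff]
      exact ⟨by linarith, h4⟩
  have e3 : (S4 T fun a b c d => if ((a - b, (-a) % m) : ℤ × ℤ) = (c - d, (-c) % m) then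
      (if m ∣ a - b then f a * f b else 0) * (if m ∣ c - d then f c * f d else 0) else 0) =
      m0 T f m := by
    rw [← e2]
    refine S4_congr T fun a b c d => ?_
    have hc : ((a - b, (-a) % m) : ℤ × ℤ) = (c - d, (-c) % m) ↔
        ((a - b, a % m) : ℤ × ℤ) = (c - d, c % m) := by
      rw [Prod.mk.injEq, Prod.mk.injEq, emod_iff, emod_iff,
        show -a - -c = -(a - c) by ring, dvd_neg]
    by_cases h1 : ((a - b, a % m) : ℤ × ℤ) = (c - d, c % m)
    · rw [if_pos h1, if_pos (hc.2 h1)]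
    · rw [if_neg h1, if_neg (fun h' => h1 (hc.1 h'))]
  rw [e1, e2, e3] at hcs
  have h0 : 0 ≤ m0 T f m := M_nonneg T h.nn _
  exact le_of_sq_le_sq (by rw [sq (m0 T f m)]; exact hcs) h0

end Pool.Agent.W858.SP
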