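import Pool.Agent.W858.SP.Cons

/-!
Cauchy-Schwarz inequalities for the mixed energies of `g` (on multiples of `m`) and `f`
(on non-multiples of `m`).
-/

set_option autoImplicit false

namespace Pool.Agent.W858.SP

open Finset H633R4.SP

variable {T : Finset ℤ} {f g : ℤ → ℝ} {m : ℤ}

theorem g0 (hg : ∀ n, g n ≠ 0 → m ∣ n) {n : ℤ} (h : ¬ m ∣ n) : g n = 0 := by
  by_contra h1
  exact h (hg n h1)

theorem f0 (h : Good f m) {n : ℤ} (h1 : m ∣ n) : f n = 0 := by
  by_contra h2
  exact h.nd n h2 h1

/-- splitting a mass -/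
theorem M_compl (h : Good f m) {φ ψ : ℤ → ℤ → ℤ → ℤ → Prop}
    (hx : ∀ w x y z, w + x = y + z → φ w x y z → ψ w x y z → False) :
    M T f φ ≤ E T f f f f - M T f ψ := by
  classical
  rw [← M_true]
  have : M T f φ + M T f ψ ≤ M T f (fun _ _ _ _ => True) := by
    simp only [M_eq]
    rw [← S4_add]
    refine S4_mono T fun w x y z => ?_
    exact pt2 _ (h.p w x y z) (fun _ _ => trivial) (fun _ _ => trivial)
      fun e _ h1 h2 => hx w x y z e h1 h2
  linarith

theorem cs_X1 (hg : ∀ n, g n ≠ 0 → m ∣ n) :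
    E T g f g f ^ 2 ≤ E T g g g g * mV T f m := by
  classical
  have hcs := cs4 T (fun a b : ℤ => a - b) (fun c d => c - d)
    (fun a b => g a * g b) (fun a b => if m ∣ a - b then f a * f b else 0)
  have e1 : (S4 T fun a b c d => if a - b = c - d then
      (g a * g b) * (if m ∣ c - d then f c * f d else 0) else 0) = E T g f g f := by
    rw [E_S4]
    refine Eq.trans (S4_congr T fun a b c d => ?_) (S4_permA T _)
    by_cases h1 : a - b = c - d
    · rw [if_pos h1, if_pos (show a + d = b + c by linarith)]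
      by_cases h2 : m ∣ c - d
      · rw [if_pos h2]; ring
      · rw [if_neg h2, mul_zero]
        by_cases h3 : m ∣ a
        · have h4 : ¬ m ∣ b := fun h4 => h2 (h1 ▸ dvd_sub h3 h4)
          rw [g0 hg h4]; ring
        · rw [g0 hg h3]; ring
    · rw [if_neg h1, if_neg (fun h' => h1 (by linarith))]
  have e2 : (S4 T fun a b c d => if a - b = c - d then (g a * g b) * (g c * g d) else 0) =
      E T g g g g := by
    rw [E_S4]
    refine Eq.trans (S4_congr T fun a b c d => ?_) (S4_permA T _)
    by_cases h1 : a - b = c - d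
    · rw [if_pos h1, if_pos (show a + d = b + c by linarith)]; ring
    · rw [if_neg h1, if_neg (fun h' => h1 (by linarith))]
  have e3 : (S4 T fun a b c d => if a - b = c - d then
      (if m ∣ a - b then f a * f b else 0) * (if m ∣ c - d then f c * f d else 0) else 0) =
      mV T f m := by
    unfold mV
    rw [M_eq]
    refine Eq.trans (S4_congr T fun a b c d => ?_) (S4_permA T _)
    by_cases h1 : a - b = c - d
    · rw [if_pos h1]
      by_cases h2 : m ∣ a - b
      · rw [if_pos h2, if_pos (h1 ▸ h2), if_pos ⟨by linarith, h2⟩]; ring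
      · rw [if_neg h2, zero_mul, if_neg (fun h' => h2 h'.2)]
    · rw [if_neg h1, if_neg (fun h' => h1 (by linarith [h'.1]))]
  rw [e1, e2, e3] at hcs
  exact hcs

theorem cs_X2 (hg : ∀ n, g n ≠ 0 → m ∣ n) :
    E T g g f f ^ 2 ≤ E T g g g g * mW T f m := by
  classical
  have hcs := cs4 T (fun a b : ℤ => a + b) (fun c d => c + d)
    (fun a b => g a * g b) (fun a b => if m ∣ a + b then f a * f b else 0)
  have e1 : (S4 T fun a b c d => if a + b = c + d then
      (g a * g b) * (if m ∣ c + d then f c * f d else 0) else 0) = E T g g f f := by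
    rw [E_S4]
    refine S4_congr T fun a b c d => ?_
    by_cases h1 : a + b = c + d
    · rw [if_pos h1, if_pos h1]
      by_cases h2 : m ∣ c + d
      · rw [if_pos h2]
      · rw [if_neg h2, mul_zero]
        by_cases h3 : m ∣ a
        · have h4 : ¬ m ∣ b := fun h4 => h2 (h1 ▸ dvd_add h3 h4)
          rw [g0 hg h4]; ring
        · rw [g0 hg h3]; ring
    · rw [if_neg h1, if_neg h1]
  have e2 : (S4 T fun a b c d => if a + b = c + d then (g a * g b) * (g c * g d) else 0) =
      E T g g g g := rfl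
  have e3 : (S4 T fun a b c d => if a + b = c + d then
      (if m ∣ a + b then f a * f b else 0) * (if m ∣ c + d then f c * f d else 0) else 0) =
      mW T f m := by
    unfold mW
    rw [M_eq]
    refine S4_congr T fun a b c d => ?_
    by_cases h1 : a + b = c + d
    · rw [if_pos h1]
      by_cases h2 : m ∣ a + b
      · rw [if_pos h2, if_pos (h1 ▸ h2), if_pos ⟨h1, h2⟩]
      · rw [if_neg h2, zero_mul, if_neg (fun h' => h2 h'.2)]
    · rw [if_neg h1, if_neg (fun h' => h1 h'.1)]
  rw [e1, e2, e3] at hcs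
  exact hcs

theorem gf_gf (T : Finset ℤ) (g f : ℤ → ℝ) :
    (S4 T fun a b c d => if a + b = c + d then (g a * f b) * (g c * f d) else 0) =
      E T g f g f := rfl

theorem gf_gf' (T : Finset ℤ) (g f : ℤ → ℝ) :
    (S4 T fun a b c d => if a - b = c - d then (g a * f b) * (g c * f d) else 0) =
      E T g f g f := by
  rw [E_S4]
  refine Eq.trans (S4_congr T fun a b c d => ?_) (S4_permB T _)
  by_cases h1 : a - b = c - d
  · rw [if_pos h1, if_pos (show a + d = c + b by linarith)]; ring
  · rw [if_neg h1, if_neg (fun h' => h1 (by linarith))]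

theorem E_gf_nonneg (T : Finset ℤ) (g f : ℤ → ℝ) : 0 ≤ E T g f g f := E_nonneg' T g f

theorem cs_X3p (h : Good f m) (hg : ∀ n, g n ≠ 0 → m ∣ n) :
    E T g f f f ^ 2 ≤ E T g f g f * (E T f f f f - mW T f m) := by
  classical
  have hcs := cs4 T (fun a b : ℤ => a + b) (fun c d => c + d)
    (fun a b => g a * f b) (fun a b => if ¬ m ∣ a + b then f a * f b else 0)
  have e1 : (S4 T fun a b c d => if a + b = c + d then
      (g a * f b) * (if ¬ m ∣ c + d then f c * f d else 0) else 0) = E T g f f f := by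
    rw [E_S4]
    refine S4_congr T fun a b c d => ?_
    by_cases h1 : a + b = c + d
    · rw [if_pos h1, if_pos h1]
      by_cases h2 : m ∣ c + d
      · rw [if_neg (not_not.2 h2), mul_zero]
        by_cases h3 : m ∣ a
        · have h4 : m ∣ b := by
            have := dvd_sub (h1 ▸ h2 : m ∣ a + b) h3
            rwa [add_sub_cancel_left] at this
          rw [f0 h h4]; ring
        · rw [g0 hg h3]; ring
      · rw [if_pos h2]
    · rw [if_neg h1, if_neg h1]
  have e3 : (S4 T fun a b c d => if a + b = c + d then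
      (if ¬ m ∣ a + b then f a * f b else 0) * (if ¬ m ∣ c + d then f c * f d else 0) else 0) =
      M T f (fun w x _ _ => ¬ m ∣ w + x) := by
    rw [M_eq]
    refine S4_congr T fun a b c d => ?_
    by_cases h1 : a + b = c + d
    · rw [if_pos h1]
      by_cases h2 : ¬ m ∣ a + b
      · rw [if_pos h2, if_pos (h1 ▸ h2), if_pos ⟨h1, h2⟩]
      · rw [if_neg h2, zero_mul, if_neg (fun h' => h2 h'.2)]
    · rw [if_neg h1, if_neg (fun h' => h1 h'.1)]
  rw [e1, gf_gf, e3] at hcs
  have h2 : M T f (fun w x _ _ => ¬ m ∣ w + x) ≤ E T f f f f - mW T f m :=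
    M_compl h fun _ _ _ _ _ h1 h2 => h1 h2
  exact hcs.trans (mul_le_mul_of_nonneg_left h2 (E_gf_nonneg T g f))

theorem cs_X3m (h : Good f m) (hg : ∀ n, g n ≠ 0 → m ∣ n) :
    E T g f f f ^ 2 ≤ E T g f g f * (E T f f f f - mV T f m) := by
  classical
  have hcs := cs4 T (fun a b : ℤ => a - b) (fun c d => c - d)
    (fun a b => g a * f b) (fun a b => if ¬ m ∣ a - b then f a * f b else 0)
  have e1 : (S4 T fun a b c d => if a - b = c - d then
      (g a * f b) * (if ¬ m ∣ c - d then f c * f d else 0) else 0) = E T g f f f := by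
    rw [E_S4]
    refine Eq.trans (S4_congr T fun a b c d => ?_) (S4_permA T _)
    by_cases h1 : a - b = c - d
    · rw [if_pos h1, if_pos (show a + d = b + c by linarith)]
      by_cases h2 : m ∣ c - d
      · rw [if_neg (not_not.2 h2), mul_zero]
        by_cases h3 : m ∣ a
        · have h4 : m ∣ b := by
            have := dvd_sub h3 (h1 ▸ h2 : m ∣ a - b)
            rwa [sub_sub_cancel] at this
          rw [f0 h h4]; ring
        · rw [g0 hg h3]; ring
      · rw [if_pos h2]; ring
    · rw [if_neg h1, if_neg (fun h' => h1 (by linarith))]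
  have e3 : (S4 T fun a b c d => if a - b = c - d then
      (if ¬ m ∣ a - b then f a * f b else 0) * (if ¬ m ∣ c - d then f c * f d else 0) else 0) =
      M T f (fun w _ y _ => ¬ m ∣ w - y) := by
    rw [M_eq]
    refine Eq.trans (S4_congr T fun a b c d => ?_) (S4_permA T _)
    by_cases h1 : a - b = c - d
    · rw [if_pos h1]
      by_cases h2 : ¬ m ∣ a - b
      · rw [if_pos h2, if_pos (h1 ▸ h2), if_pos ⟨by linarith, h2⟩]; ring
      · rw [if_neg h2, zero_mul, if_neg (fun h' => h2 h'.2)]
    · rw [if_neg h1, if_neg (fun h' => h1 (by linarith [h'.1]))]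
  rw [e1, gf_gf', e3] at hcs
  have h2 : M T f (fun w _ y _ => ¬ m ∣ w - y) ≤ E T f f f f - mV T f m :=
    M_compl h fun _ _ _ _ _ h1 h2 => h1 h2
  exact hcs.trans (mul_le_mul_of_nonneg_left h2 (E_gf_nonneg T g f))

/-- the part of the cubic term with `y ≡ z` -/
noncomputable def Xa (T : Finset ℤ) (g f : ℤ → ℝ) (m : ℤ) : ℝ :=
  S4 T fun w x y z => if w + x = y + z ∧ m ∣ y - z then g w * f x * (f y * f z) else 0

/-- the part of the cubic term with `y ≢ z` -/
noncomputable def Xb (T : Finset ℤ) (g f : ℤ → ℝ) (m : ℤ) : ℝ :=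
  S4 T fun w x y z => if w + x = y + z ∧ ¬ m ∣ y - z then g w * f x * (f y * f z) else 0

theorem Xa_add_Xb (T : Finset ℤ) (g f : ℤ → ℝ) (m : ℤ) : E T g f f f = Xa T g f m + Xb T g f m := by
  unfold Xa Xb
  rw [← S4_add, E_S4]
  refine S4_congr T fun w x y z => ?_
  by_cases h1 : w + x = y + z <;> by_cases h2 : m ∣ y - z <;> simp [h1, h2]

theorem cs_Xb (h : Good f m) (hg : ∀ n, g n ≠ 0 → m ∣ n) :
    Xb T g f m ^ 2 ≤ E T g f g f * (E T f f f f - mW T f m - m0 T f m) := by
  classical
  have hcs := cs4 T (fun a b : ℤ => a + b) (fun c d => c + d)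
    (fun a b => g a * f b) (fun a b => if ¬ m ∣ a + b ∧ ¬ m ∣ a - b then f a * f b else 0)
  have e1 : (S4 T fun a b c d => if a + b = c + d then
      (g a * f b) * (if ¬ m ∣ c + d ∧ ¬ m ∣ c - d then f c * f d else 0) else 0) =
      Xb T g f m := by
    unfold Xb
    refine S4_congr T fun a b c d => ?_
    by_cases h1 : a + b = c + d
    · rw [if_pos h1]
      by_cases h3 : m ∣ c - d
      · rw [if_neg (fun h' => h'.2 h3), if_neg (fun h' => h'.2 h3), mul_zero]
      · by_cases h2 : m ∣ c + d
        · rw [if_neg (fun h' => h'.1 h2), if_pos ⟨h1, h3⟩, mul_zero]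
          by_cases h3 : m ∣ a
          · have h4 : m ∣ b := by
              have := dvd_sub (h1 ▸ h2 : m ∣ a + b) h3
              rwa [add_sub_cancel_left] at this
            rw [f0 h h4]; ring
          · rw [g0 hg h3]; ring
        · rw [if_pos ⟨h2, h3⟩, if_pos ⟨h1, h3⟩]
    · rw [if_neg h1, if_neg (fun h' => h1 h'.1)]
  have e3 : (S4 T fun a b c d => if a + b = c + d then
      (if ¬ m ∣ a + b ∧ ¬ m ∣ a - b then f a * f b else 0) *
        (if ¬ m ∣ c + d ∧ ¬ m ∣ c - d then f c * f d else 0) else 0) =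
      M T f (fun w x y z => ¬ m ∣ w + x ∧ ¬ m ∣ w - x ∧ ¬ m ∣ y - z) := by
    rw [M_eq]
    refine S4_congr T fun a b c d => ?_
    by_cases h1 : a + b = c + d
    · rw [if_pos h1]
      by_cases h2 : ¬ m ∣ a + b ∧ ¬ m ∣ a - b
      · rw [if_pos h2]
        by_cases h3 : m ∣ c - d
        · rw [if_neg (fun h' => h'.2 h3), mul_zero, if_neg (fun h' => h'.2.2.2 h3)]
        · rw [if_pos ⟨h1 ▸ h2.1, h3⟩, if_pos ⟨h1, h2.1, h2.2, h3⟩]
      · rw [if_neg h2, zero_mul, if_neg (fun h' => h2 ⟨h'.2.1, h'.2.2.1⟩)]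
    · rw [if_neg h1, if_neg (fun h' => h1 h'.1)]
  rw [e1, gf_gf, e3] at hcs
  have h2 : M T f (fun w x y z => ¬ m ∣ w + x ∧ ¬ m ∣ w - x ∧ ¬ m ∣ y - z) ≤
      E T f f f f - mW T f m - m0 T f m := by
    have key : M T f (fun w x y z => ¬ m ∣ w + x ∧ ¬ m ∣ w - x ∧ ¬ m ∣ y - z) + mW T f m +
        m0 T f m ≤ M T f (fun _ _ _ _ => True) := by
      unfold mW m0
      simp only [M_eq]
      rw [← S4_add, ← S4_add]
      refine S4_mono T fun w x y z => ?_
      refine pt3 _ (h.p w x y z) (fun _ _ => trivial) (fun _ _ => trivial) (fun _ _ => trivial)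
        ?_ ?_ ?_
      · exact fun _ _ h1 h2 => h1.1 h2
      · intro e _ h1 h2
        apply h1.2.2
        have := dvd_sub h2.2 h2.1
        rwa [show w - z - (w - y) = y - z by ring] at this
      · exact fun e h0 h1 h2 => h.w h0 (h.xyz e h1 h2.1 h2.2)
    rw [M_true] at key
    linarith
  exact hcs.trans (mul_le_mul_of_nonneg_left h2 (E_gf_nonneg T g f))

theorem cs_Xa (hg : ∀ n, g n ≠ 0 → m ∣ n) :
    Xa T g f m ^ 2 ≤ E T g f g f * m2 T f m := by
  classical
  have hcs := cs4 T (fun a b : ℤ => a - b) (fun c d => c - d)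
    (fun a b => g a * f b) (fun a b => if m ∣ b - 2 * a then f a * f b else 0)
  have e1 : (S4 T fun a b c d => if a - b = c - d then
      (g a * f b) * (if m ∣ d - 2 * c then f c * f d else 0) else 0) = Xa T g f m := by
    unfold Xa
    refine Eq.trans (S4_congr T fun a b c d => ?_) (S4_permA T _)
    by_cases h1 : a - b = c - d
    · rw [if_pos h1]
      by_cases h3 : m ∣ a
      · have h4 : m ∣ d - 2 * c ↔ m ∣ b - c := by
          have e : b - c = a + (d - 2 * c) := by linarith
          rw [e, dvd_add_right h3]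
        by_cases h5 : m ∣ b - c
        · rw [if_pos (h4.2 h5), if_pos ⟨by linarith, h5⟩]; ring
        · rw [if_neg (fun h' => h5 (h4.1 h')), if_neg (fun h' => h5 h'.2), mul_zero]
      · rw [g0 hg h3]; simp
    · rw [if_neg h1, if_neg (fun h' => h1 (by linarith [h'.1]))]
  have e3 : (S4 T fun a b c d => if a - b = c - d then
      (if m ∣ b - 2 * a then f a * f b else 0) * (if m ∣ d - 2 * c then f c * f d else 0) else 0) =
      m2 T f m := by
    unfold m2
    rw [M_eq]
    refine Eq.trans (S4_congr T fun a b c d => ?_) (S4_permB T _)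
    by_cases h1 : a - b = c - d
    · rw [if_pos h1]
      by_cases h2 : m ∣ b - 2 * a
      · rw [if_pos h2]
        by_cases h3 : m ∣ d - 2 * c
        · rw [if_pos h3, if_pos ⟨by linarith, h2, h3⟩]; ring
        · rw [if_neg h3, mul_zero, if_neg (fun h' => h3 h'.2.2)]
      · rw [if_neg h2, zero_mul, if_neg (fun h' => h2 h'.2.1)]
    · rw [if_neg h1, if_neg (fun h' => h1 (by linarith [h'.1]))]
  rw [e1, gf_gf', e3] at hcs
  exact hcs

end Pool.Agent.W858.SP
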