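import Pool.Agent.H633R4.SP.Energy

/-!
Masses of families of additive quadruples, and the Cauchy-Schwarz inequalities between them.
-/

set_option autoImplicit false

namespace Pool.Agent.W858.SP

open Finset H633R4.SP

/-- a sum over all quadruples of elements of `T` -/
noncomputable def S4 (T : Finset ℤ) (F : ℤ → ℤ → ℤ → ℤ → ℝ) : ℝ :=
  ∑ w ∈ T, ∑ x ∈ T, ∑ y ∈ T, ∑ z ∈ T, F w x y z

theorem S4_congr (T : Finset ℤ) {F G : ℤ → ℤ → ℤ → ℤ → ℝ} (h : ∀ w x y z, F w x y z = G w x y z) :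
    S4 T F = S4 T G := by
  have : F = G := by
    funext w x y z
    exact h w x y z
  rw [this]

theorem S4_mono (T : Finset ℤ) {F G : ℤ → ℤ → ℤ → ℤ → ℝ} (h : ∀ w x y z, F w x y z ≤ G w x y z) :
    S4 T F ≤ S4 T G :=
  Finset.sum_le_sum fun w _ => Finset.sum_le_sum fun x _ => Finset.sum_le_sum fun y _ =>
    Finset.sum_le_sum fun z _ => h w x y z

theorem S4_nonneg (T : Finset ℤ) {F : ℤ → ℤ → ℤ → ℤ → ℝ} (h : ∀ w x y z, 0 ≤ F w x y z) :
    0 ≤ S4 T F :=
  Finset.sum_nonneg fun w _ => Finset.sum_nonneg fun x _ => Finset.sum_nonneg fun y _ =>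
    Finset.sum_nonneg fun z _ => h w x y z

theorem S4_add (T : Finset ℤ) (F G : ℤ → ℤ → ℤ → ℤ → ℝ) :
    S4 T (fun w x y z => F w x y z + G w x y z) = S4 T F + S4 T G := by
  unfold S4
  simp only [Finset.sum_add_distrib]

theorem S4_swap12 (T : Finset ℤ) (F : ℤ → ℤ → ℤ → ℤ → ℝ) :
    S4 T (fun w x y z => F x w y z) = S4 T F := by
  unfold S4
  exact Finset.sum_comm

theorem S4_swap23 (T : Finset ℤ) (F : ℤ → ℤ → ℤ → ℤ → ℝ) :
    S4 T (fun w x y z => F w y x z) = S4 T F := by
  unfold S4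
  exact Finset.sum_congr rfl fun w _ => Finset.sum_comm

theorem S4_swap34 (T : Finset ℤ) (F : ℤ → ℤ → ℤ → ℤ → ℝ) :
    S4 T (fun w x y z => F w x z y) = S4 T F := by
  unfold S4
  exact Finset.sum_congr rfl fun w _ => Finset.sum_congr rfl fun x _ => Finset.sum_comm

/-- `(a, b, c, d)` plays the role of `(w, y, z, x)` -/
theorem S4_permA (T : Finset ℤ) (F : ℤ → ℤ → ℤ → ℤ → ℝ) :
    S4 T (fun a b c d => F a d b c) = S4 T F := by
  rw [← S4_swap23 T F, ← S4_swap34 T (fun w x y z => F w y x z)]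

/-- `(a, b, c, d)` plays the role of `(w, z, y, x)` -/
theorem S4_permB (T : Finset ℤ) (F : ℤ → ℤ → ℤ → ℤ → ℝ) :
    S4 T (fun a b c d => F a d c b) = S4 T F := by
  rw [← S4_permA T F]
  exact S4_swap23 T (fun a b c d => F a d b c)

/-- `(a, b, c, d)` plays the role of `(y, z, w, x)` -/
theorem S4_permC (T : Finset ℤ) (F : ℤ → ℤ → ℤ → ℤ → ℝ) :
    S4 T (fun a b c d => F c d a b) = S4 T F := by
  rw [← S4_permA T F, ← S4_swap12 T (fun a b c d => F a d b c),
    ← S4_swap23 T (fun w x y z => F x z w y)]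

theorem E_S4 (T : Finset ℤ) (a b c d : ℤ → ℝ) :
    E T a b c d = S4 T (fun w x y z => if w + x = y + z then a w * b x * (c y * d z) else 0) := rfl

theorem E_pair (T : Finset ℤ) (a b c d : ℤ → ℝ) : E T a b c d = E T c d a b := by
  rw [E_S4, E_S4, ← S4_permC T (fun w x y z => if w + x = y + z then a w * b x * (c y * d z) else 0)]
  refine S4_congr T fun w x y z => ?_
  by_cases h : w + x = y + z
  · rw [if_pos h, if_pos h.symm]; ring
  · rw [if_neg h, if_neg (fun h' => h h'.symm)]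

theorem E_left (T : Finset ℤ) (a b c d : ℤ → ℝ) : E T a b c d = E T b a c d := by
  rw [E_S4, E_S4, ← S4_swap12 T (fun w x y z => if w + x = y + z then a w * b x * (c y * d z) else 0)]
  refine S4_congr T fun w x y z => ?_
  by_cases h : w + x = y + z
  · rw [if_pos h, if_pos (show x + w = y + z by rw [add_comm]; exact h)]; ring
  · rw [if_neg h, if_neg (fun h' => h (by rw [add_comm]; exact h'))]

theorem E_right (T : Finset ℤ) (a b c d : ℤ → ℝ) : E T a b c d = E T a b d c := by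
  rw [E_pair T a b c d, E_left T c d a b, E_pair T d c a b]

/-- grouping by labels -/
theorem labg {P Q L : Type*} [DecidableEq L] (S : Finset P) (S' : Finset Q) (l : P → L)
    (l' : Q → L) (u : P → ℝ) (v : Q → ℝ) (K : Finset L) (hL : ∀ p ∈ S, l p ∈ K) :
    (∑ p ∈ S, ∑ q ∈ S', if l p = l' q then u p * v q else 0) =
      ∑ s ∈ K, (∑ p ∈ S, if l p = s then u p else 0) *
        (∑ q ∈ S', if l' q = s then v q else 0) := by
  have h1 : ∀ s ∈ K, (∑ p ∈ S, if l p = s then u p else 0) *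
        (∑ q ∈ S', if l' q = s then v q else 0) =
      ∑ p ∈ S, ∑ q ∈ S', if l p = s then (if l' q = s then u p * v q else 0) else 0 := by
    intro s _
    rw [Finset.sum_mul_sum]
    refine Finset.sum_congr rfl fun p _ => Finset.sum_congr rfl fun q _ => ?_
    split_ifs <;> simp
  rw [Finset.sum_congr rfl h1]
  have h2 : (∑ s ∈ K, ∑ p ∈ S, ∑ q ∈ S', if l p = s then (if l' q = s then u p * v q else 0)
      else 0) = ∑ p ∈ S, ∑ q ∈ S', ∑ s ∈ K,
        if l p = s then (if l' q = s then u p * v q else 0) else 0 := by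
    rw [Finset.sum_comm]
    refine Finset.sum_congr rfl fun p _ => ?_
    rw [Finset.sum_comm]
  rw [h2]
  refine Finset.sum_congr rfl fun p hp => Finset.sum_congr rfl fun q _ => ?_
  rw [Finset.sum_ite_eq]
  rw [if_pos (hL p hp)]
  by_cases h : l p = l' q
  · rw [if_pos h, if_pos h.symm]
  · rw [if_neg h, if_neg (fun h' => h h'.symm)]

/-- Cauchy-Schwarz after grouping by labels -/
theorem cslg {P Q L : Type*} [DecidableEq L] (S : Finset P) (S' : Finset Q) (l : P → L)
    (l' : Q → L) (u : P → ℝ) (v : Q → ℝ) :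
    (∑ p ∈ S, ∑ q ∈ S', if l p = l' q then u p * v q else 0) ^ 2 ≤
      (∑ p ∈ S, ∑ p' ∈ S, if l p = l p' then u p * u p' else 0) *
        (∑ q ∈ S', ∑ q' ∈ S', if l' q = l' q' then v q * v q' else 0) := by
  classical
  set K : Finset L := S.image l ∪ S'.image l' with hK
  have h1 : ∀ p ∈ S, l p ∈ K := fun p hp => by
    rw [hK]; exact Finset.mem_union_left _ (Finset.mem_image_of_mem _ hp)
  have h2 : ∀ q ∈ S', l' q ∈ K := fun q hq => by
    rw [hK]; exact Finset.mem_union_right _ (Finset.mem_image_of_mem _ hq)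
  rw [labg S S' l l' u v K h1, labg S S l l u u K h1, labg S' S' l' l' v v K h2]
  have := Finset.sum_mul_sq_le_sq_mul_sq K (fun s => ∑ p ∈ S, if l p = s then u p else 0)
    (fun s => ∑ q ∈ S', if l' q = s then v q else 0)
  simpa only [sq] using this

/-- Cauchy-Schwarz for sums over quadruples -/
theorem cs4 {L : Type*} [DecidableEq L] (T : Finset ℤ) (l l' : ℤ → ℤ → L) (u v : ℤ → ℤ → ℝ) :
    (S4 T fun a b c d => if l a b = l' c d then u a b * v c d else 0) ^ 2 ≤
      (S4 T fun a b c d => if l a b = l c d then u a b * u c d else 0) *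
        (S4 T fun a b c d => if l' a b = l' c d then v a b * v c d else 0) := by
  have h := cslg (T ×ˢ T) (T ×ˢ T) (fun p => l p.1 p.2) (fun p => l' p.1 p.2)
    (fun p => u p.1 p.2) (fun p => v p.1 p.2)
  simp only [Finset.sum_product] at h
  exact h

/-- the mass of the quadruples `w + x = y + z` with the property `φ` -/
noncomputable def M (T : Finset ℤ) (f : ℤ → ℝ) (φ : ℤ → ℤ → ℤ → ℤ → Prop) : ℝ := by
  classical
  exact S4 T fun w x y z => if w + x = y + z ∧ φ w x y z then f w * f x * (f y * f z) else 0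

theorem M_eq (T : Finset ℤ) (f : ℤ → ℝ) (φ : ℤ → ℤ → ℤ → ℤ → Prop)
    [∀ w x y z, Decidable (w + x = y + z ∧ φ w x y z)] :
    M T f φ = S4 T fun w x y z =>
      if w + x = y + z ∧ φ w x y z then f w * f x * (f y * f z) else 0 := by
  unfold M
  refine S4_congr T fun w x y z => ?_
  by_cases h : w + x = y + z ∧ φ w x y z
  · rw [if_pos h, if_pos h]
  · rw [if_neg h, if_neg h]

theorem M_nonneg (T : Finset ℤ) {f : ℤ → ℝ} (hf : ∀ n, 0 ≤ f n) (φ : ℤ → ℤ → ℤ → ℤ → Prop) :
    0 ≤ M T f φ := by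
  classical
  rw [M_eq]
  refine S4_nonneg T fun w x y z => ?_
  have h1 := hf w
  have h2 := hf x
  have h3 := hf y
  have h4 := hf z
  split_ifs
  · positivity
  · exact le_rfl

theorem M_true (T : Finset ℤ) (f : ℤ → ℝ) : M T f (fun _ _ _ _ => True) = E T f f f f := by
  classical
  rw [M_eq, E_S4]
  refine S4_congr T fun w x y z => ?_
  simp only [and_true]

end Pool.Agent.W858.SP
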