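import Pool.Agent.W858.SP.Cross

/-!
The inequality `E (g + τ f) ≤ Θ τ` when `E g ≤ 1`, `E f ≤ 1`.
-/

set_option autoImplicit false

namespace Pool.Agent.W858.SP

open Finset H633R4.SP

/-- the majorant of the energy of `g + τ f` -/
noncomputable def th (τ : ℝ) : ℝ :=
  if τ ≤ 1 then 1 + 49 / 10 * τ ^ 2 + 243 / 125 * τ ^ 3 + τ ^ 4
  else 1 + 543 / 125 * τ ^ 2 + 5 / 2 * τ ^ 3 + τ ^ 4

theorem th_lo {τ : ℝ} (h : τ ≤ 1) : th τ = 1 + 49 / 10 * τ ^ 2 + 243 / 125 * τ ^ 3 + τ ^ 4 := by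
  unfold th
  rw [if_pos h]

theorem th_hi {τ : ℝ} (h : 1 ≤ τ) : th τ = 1 + 543 / 125 * τ ^ 2 + 5 / 2 * τ ^ 3 + τ ^ 4 := by
  unfold th
  rcases h.eq_or_lt with h | h
  · rw [← h]; norm_num
  · rw [if_neg (not_le.2 h)]

theorem one_le_th {τ : ℝ} (h : 0 ≤ τ) : 1 ≤ th τ := by
  unfold th
  split_ifs
  · have : 0 ≤ 49 / 10 * τ ^ 2 + 243 / 125 * τ ^ 3 + τ ^ 4 := by positivity
    linarith
  · have : 0 ≤ 543 / 125 * τ ^ 2 + 5 / 2 * τ ^ 3 + τ ^ 4 := by positivity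
    linarith

theorem amgm {x a b α β : ℝ} (ha : 0 ≤ a) (hb : 0 ≤ b) (hα : 0 ≤ α) (hβ : 0 ≤ β)
    (h : 1 ≤ 4 * (α * β)) (hx : x ^ 2 ≤ a * b) : x ≤ α * a + β * b := by
  have h0 : 0 ≤ α * a + β * b := by positivity
  apply le_of_sq_le_sq _ h0
  have h1 : 0 ≤ (α * a - β * b) ^ 2 := sq_nonneg _
  have h2 : 0 ≤ a * b := by positivity
  have h3 : a * b * 1 ≤ a * b * (4 * (α * β)) := mul_le_mul_of_nonneg_left h h2
  nlinarith

/-- node `τ = 0` -/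
theorem node0 {x1 x2 B W V s0 s1 s2 : ℝ} (hB : B ≤ 1)
    (h1 : x1 ^ 2 ≤ V) (h2 : x2 ^ 2 ≤ W)
    (c1 : s0 + s1 + 2 * s2 ≤ V) (c2 : W + 2 * V ≤ B + s0 + 2 * s1) (c3 : 2 * s1 ≤ W)
    (hs2 : 0 ≤ s2) : 4 * x1 + 2 * x2 ≤ 49 / 10 := by
  have a1 : x1 ≤ 11 / 18 * V + 9 / 22 := by nlinarith [sq_nonneg (x1 - 9 / 11)]
  have a2 : x2 ≤ 11 / 18 * W + 9 / 22 := by nlinarith [sq_nonneg (x2 - 9 / 11)]
  linarith

/-- node `τ = 1` -/
theorem node1 {x1 x2 xa xb B W V s0 s1 s2 : ℝ} (hB : B ≤ 1)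
    (h1 : x1 ^ 2 ≤ V) (h2 : x2 ^ 2 ≤ W) (hx1 : 0 ≤ x1) (hBV : 0 ≤ B - V) (hs2 : 0 ≤ s2)
    (hBW : 0 ≤ B - W - s0)
    (h3 : (xa + xb) ^ 2 ≤ x1 * (B - V)) (h4 : xa ^ 2 ≤ x1 * s2)
    (h5 : xb ^ 2 ≤ x1 * (B - W - s0))
    (c1 : s0 + s1 + 2 * s2 ≤ V) (c2 : W + 2 * V ≤ B + s0 + 2 * s1) (c3 : 2 * s1 ≤ W)
    (c4 : s1 ≤ s0) : 4 * x1 + 2 * x2 + 4 * (xa + xb) ≤ 6844 / 1000 := by
  have a1 : x1 ≤ 5 / 8 * V + 2 / 5 := by nlinarith [sq_nonneg (x1 - 4 / 5)]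
  have a2 : x2 ≤ 2 / 3 * W + 3 / 8 := by nlinarith [sq_nonneg (x2 - 3 / 4)]
  have a3 : xa + xb ≤ 1 / 3 * x1 + 3 / 4 * (B - V) :=
    amgm hx1 hBV (by norm_num) (by norm_num) (by norm_num) h3
  have a4 : xa ≤ 1 / 9 * x1 + 9 / 4 * s2 :=
    amgm hx1 hs2 (by norm_num) (by norm_num) (by norm_num) h4
  have a5 : xb ≤ 2 / 9 * x1 + 9 / 8 * (B - W - s0) :=
    amgm hx1 hBW (by norm_num) (by norm_num) (by norm_num) h5
  linarith

theorem slope {x1 x3 B V : ℝ} (hB : B ≤ 1) (h1 : x1 ^ 2 ≤ V) (hx1 : 0 ≤ x1)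
    (h3 : x3 ^ 2 ≤ x1 * (B - V)) : x3 ≤ 5 / 8 := by
  have h4 : x1 * (B - V) ≤ x1 * (1 - x1 ^ 2) := mul_le_mul_of_nonneg_left (by linarith) hx1
  have h5 : x1 * (1 - x1 ^ 2) ≤ (5 / 8) ^ 2 := by
    nlinarith [mul_nonneg hx1 (sq_nonneg (x1 - 15 / 26)), sq_nonneg (x1 - 15 / 26)]
  exact le_of_sq_le_sq ((h3.trans h4).trans h5) (by norm_num)

theorem E_smul (T : Finset ℤ) (a b c d : ℤ → ℝ) (s t u v : ℝ) :
    E T (fun n => s * a n) (fun n => t * b n) (fun n => u * c n) (fun n => v * d n) =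
      s * t * (u * v) * E T a b c d := by
  unfold E
  simp only [Finset.mul_sum]
  refine Finset.sum_congr rfl fun w _ => Finset.sum_congr rfl fun x _ =>
    Finset.sum_congr rfl fun y _ => Finset.sum_congr rfl fun z _ => ?_
  split_ifs <;> ring

theorem E_gggf (T : Finset ℤ) {g f : ℤ → ℝ} {m : ℤ} (h : Good f m)
    (hg : ∀ n, g n ≠ 0 → m ∣ n) : E T g g g f = 0 := by
  have hG : ∀ n, g n = 0 ∨ m ∣ n := fun n => by
    by_cases h1 : g n = 0
    · exact Or.inl h1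
    · exact Or.inr (hg n h1)
  apply E_zero
  intro w x y z he
  rcases hG w with h1 | h1
  · rw [h1]; ring
  rcases hG x with h2 | h2
  · rw [h2]; ring
  rcases hG y with h3 | h3
  · rw [h3]; ring
  rw [f0 h (show m ∣ z by
    rw [show z = w + x - y by linarith]; exact dvd_sub (dvd_add h1 h2) h3)]
  ring

theorem E_mix (T : Finset ℤ) {g f : ℤ → ℝ} {m : ℤ} (h : Good f m)
    (hg : ∀ n, g n ≠ 0 → m ∣ n) (τ : ℝ) :
    E T (fun n => g n + τ * f n) (fun n => g n + τ * f n) (fun n => g n + τ * f n)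
      (fun n => g n + τ * f n) =
    E T g g g g + τ ^ 2 * (4 * E T g f g f + 2 * E T g g f f) + 4 * τ ^ 3 * E T g f f f +
      τ ^ 4 * E T f f f f := by
  have h0 := E_add T g (fun n => τ * f n)
  have e1 : (fun n => (1 : ℝ) * g n) = g := by funext n; ring
  have k : ∀ (a b c d : ℤ → ℝ) (s t u v : ℝ), E T (fun n => s * a n) (fun n => t * b n)
      (fun n => u * c n) (fun n => v * d n) = s * t * (u * v) * E T a b c d := E_smul T
  have z := E_gggf T h hg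
  have z4 := k g g g f 1 1 1 τ
  have z3 := k g g f g 1 1 τ 1
  have z2 := k g f g g 1 τ 1 1
  have z1 := k f g g g τ 1 1 1
  have t1 := k f f g g τ τ 1 1
  have t2 := k g g f f 1 1 τ τ
  have t3 := k f g f g τ 1 τ 1
  have t4 := k f g g f τ 1 1 τ
  have t5 := k g f f g 1 τ τ 1
  have t6 := k g f g f 1 τ 1 τ
  have q1 := k f f f g τ τ τ 1
  have q2 := k f f g f τ τ 1 τ
  have q3 := k f g f f τ 1 τ τ
  have q4 := k g f f f 1 τ τ τ
  have r1 := k f f f f τ τ τ τ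
  rw [E_right T g g f g, z] at z3
  rw [E_pair T g f g g, E_right T g g g f, E_right T g g f g, z] at z2
  rw [E_pair T f g g g, E_right T g g f g, z] at z1
  rw [z] at z4
  rw [E_pair T f f g g] at t1
  rw [E_left T f g f g, E_right T g f f g] at t3
  rw [E_left T f g g f] at t4
  rw [E_right T g f f g] at t5
  rw [E_pair T f f f g, E_left T f g f f] at q1
  rw [E_pair T f f g f] at q2
  rw [E_left T f g f f] at q3
  simp only [e1] at z1 z2 z3 z4 t1 t2 t3 t4 t5 t6 q1 q2 q3 q4 r1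
  rw [z1, z2, z3, z4, t1, t2, t3, t4, t5, t6, q1, q2, q3, q4, r1] at h0
  rw [h0]
  ring

/-- **The energy inequality.** -/
theorem theta (T : Finset ℤ) {g f : ℤ → ℝ} {m : ℤ} (h : Good f m)
    (hg : ∀ n, g n ≠ 0 → m ∣ n) (hEg : E T g g g g ≤ 1) (hEf : E T f f f f ≤ 1) {τ : ℝ}
    (hτ : 0 ≤ τ) :
    E T (fun n => g n + τ * f n) (fun n => g n + τ * f n) (fun n => g n + τ * f n)
      (fun n => g n + τ * f n) ≤ th τ := by
  rw [E_mix T h hg]
  have hx1 : 0 ≤ E T g f g f := E_gf_nonneg T g f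
  have hV0 : 0 ≤ mV T f m := M_nonneg T h.nn _
  have hW0 : 0 ≤ mW T f m := M_nonneg T h.nn _
  have hs2 : 0 ≤ m2 T f m := M_nonneg T h.nn _
  have h1 : E T g f g f ^ 2 ≤ mV T f m := by
    have := cs_X1 (T := T) (f := f) hg
    nlinarith
  have h2 : E T g g f f ^ 2 ≤ mW T f m := by
    have := cs_X2 (T := T) (f := f) hg
    nlinarith
  have h3 := cs_X3m (T := T) h hg
  have h4 := cs_Xa (T := T) (f := f) hg
  have h5 := cs_Xb (T := T) h hg
  have e3 := Xa_add_Xb T g f m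
  have hBV : 0 ≤ E T f f f f - mV T f m := by
    have := M_compl (T := T) h (φ := fun w _ y _ => ¬ m ∣ w - y) (ψ := fun w _ y _ => m ∣ w - y)
      fun _ _ _ _ _ h1 h2 => h1 h2
    exact (M_nonneg T h.nn _).trans this
  have hBW : 0 ≤ E T f f f f - mW T f m - m0 T f m := by
    classical
    have key : mW T f m + m0 T f m ≤ M T f (fun _ _ _ _ => True) := by
      unfold mW m0
      simp only [M_eq]
      rw [← S4_add]
      refine S4_mono T fun w x y z => ?_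
      exact pt2 _ (h.p w x y z) (fun _ _ => trivial) (fun _ _ => trivial)
        fun e h0 h1 h2 => h.w h0 (h.xyz e h1 h2.1 h2.2)
    rw [M_true] at key
    linarith
  have c1 := cons1 (T := T) h
  have c2 := cons2 (T := T) h
  have c3 := cons3 (T := T) h
  have c4 := cons4 (T := T) h
  have n0 := node0 hEf h1 h2 c1 c2 c3 hs2
  have h3' : (Xa T g f m + Xb T g f m) ^ 2 ≤ E T g f g f * (E T f f f f - mV T f m) := by
    rw [← e3]; exact h3
  have n1 := node1 hEf h1 h2 hx1 hBV hs2 hBW h3' h4 h5 c1 c2 c3 c4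
  rw [← e3] at n1
  have sl := slope hEf h1 hx1 h3
  have hB : τ ^ 4 * E T f f f f ≤ τ ^ 4 * 1 := mul_le_mul_of_nonneg_left hEf (by positivity)
  rcases le_total τ 1 with ht | ht
  · rw [th_lo ht]
    have k1 : 4 * E T g f g f + 2 * E T g g f f + 4 * τ * E T g f f f ≤
        49 / 10 + 243 / 125 * τ := by
      have a := mul_le_mul_of_nonneg_left n0 (by linarith : 0 ≤ 1 - τ)
      have b := mul_le_mul_of_nonneg_left n1 hτ
      nlinarith
    have k2 := mul_le_mul_of_nonneg_left k1 (sq_nonneg τ)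
    nlinarith
  · rw [th_hi ht]
    have k1 : 4 * E T g f g f + 2 * E T g g f f + 4 * τ * E T g f f f ≤
        543 / 125 + 5 / 2 * τ := by
      have b := mul_le_mul_of_nonneg_left sl (by linarith : 0 ≤ 4 * (τ - 1))
      nlinarith
    have k2 := mul_le_mul_of_nonneg_left k1 (sq_nonneg τ)
    nlinarith

end Pool.Agent.W858.SP
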